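import Pool.Agent.H44.EP.Defs

/-!
# Row EP/Init: the initial stage of a word with every letter repeated `q` times, `q` even

`w : ℤ → Bool` has period `T0` and is balanced; `T = q * T0`.  `v x = 1` if `w ((x.val : ℤ) / q) = true`, else `-1`
(`x : ZMod T`), `g0 x = ∑ k ∈ range (x.val + 1), s k`, `s k = if w ((k : ℤ) / q) = true then 1 else -1` (`k : ℕ`).
`∑_{k < T} s k = q * ∑_{k < T0} (±1) = 0` (induction on `T0` in blocks of `q`, or any other way), so
`v x = g0 x - g0 (x-1)` also at `x = 0` (where `(x-1).val = T - 1`).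
`n x = v (x+1)`, `p x = v x`, `N = 0`, `κ = 0`.
`par`: if `v (x+1) ≠ v x` then `(x.val + 1) / q ≠ x.val / q` (when `x.val + 1 < T`) so `q ∣ x.val + 1`; when
`x.val + 1 = T` also `q ∣ x.val + 1`.  `g0 x` has the parity of `x.val + 1`, hence is even.
`quad`: `∑ v² = T`.  `var` is an equality (`n (x-1) = v x`, `n x = v (x+1)`).
Last claim: `1 - v x * v (x+1) ∈ {0, 2}`, nonzero only if `q ∣ x.val + 1`; there are `T0` such `x`.
-/

namespace Pool.Agent.H44.EP

open Finset

/-- the sign of the letter `k` -/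
def Init_s (q : ℕ) (w : ℤ → Bool) (k : ℕ) : ℤ := if w ((k : ℤ) / q) = true then 1 else -1

/-- the height -/
def Init_S (q : ℕ) (w : ℤ → Bool) (n : ℕ) : ℤ := ∑ k ∈ range n, Init_s q w k

theorem Init_s_pm (q : ℕ) (w : ℤ → Bool) (k : ℕ) : Init_s q w k = 1 ∨ Init_s q w k = -1 := by
  unfold Init_s
  split_ifs
  · exact Or.inl rfl
  · exact Or.inr rfl

theorem Init_s_iff (q : ℕ) (w : ℤ → Bool) (k : ℕ) :
    w ((k : ℤ) / q) = true ↔ Init_s q w k = 1 := by
  unfold Init_s
  split_ifs with h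
  · exact ⟨fun _ => rfl, fun _ => h⟩
  · constructor
    · intro h1
      exact absurd h1 h
    · intro h1
      norm_num at h1

theorem Init_s_block (q : ℕ) (hq : 0 < q) (w : ℤ → Bool) (m i : ℕ) (hi : i < q) :
    Init_s q w (q * m + i) = if w (m : ℤ) = true then 1 else -1 := by
  unfold Init_s
  have h1 : (((q * m + i : ℕ) : ℤ) / (q : ℤ)) = (m : ℤ) := by
    rw [← Int.natCast_div, Nat.mul_add_div hq, Nat.div_eq_of_lt hi, add_zero]
  rw [h1]

theorem Init_S_block (q : ℕ) (hq : 0 < q) (w : ℤ → Bool) (m : ℕ) :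
    Init_S q w (q * m) = q * ∑ j ∈ range m, (if w (j : ℤ) = true then (1 : ℤ) else -1) := by
  induction m with
  | zero => simp [Init_S]
  | succ m ih =>
    have h1 : Init_S q w (q * (m + 1)) = Init_S q w (q * m) +
        ∑ i ∈ range q, Init_s q w (q * m + i) := by
      unfold Init_S
      rw [mul_add, mul_one, Finset.sum_range_add]
    rw [h1, ih, Finset.sum_range_succ, mul_add]
    congr 1
    rw [Finset.sum_congr rfl fun i hi => Init_s_block q hq w m i (Finset.mem_range.1 hi),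
      Finset.sum_const, Finset.card_range, nsmul_eq_mul]

theorem Init_S_zero (T0 q : ℕ) (hq : 0 < q) (w : ℤ → Bool)
    (hbal : 2 * ((range T0).filter fun x : ℕ => w (x : ℤ) = true).card = T0) :
    Init_S q w (q * T0) = 0 := by
  rw [Init_S_block q hq, Finset.sum_ite, Finset.sum_const, Finset.sum_const]
  have h1 := Finset.card_filter_add_card_filter_not (s := range T0) (fun x : ℕ => w (x : ℤ) = true)
  rw [Finset.card_range] at h1
  have h2 : ((range T0).filter fun x : ℕ => w (x : ℤ) = true).card =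
      ((range T0).filter fun x : ℕ => ¬ w (x : ℤ) = true).card := by omega
  rw [← h2]
  simp

theorem Init_S_parity (q : ℕ) (w : ℤ → Bool) (n : ℕ) : (2 : ℤ) ∣ Init_S q w n - n := by
  induction n with
  | zero => simp [Init_S]
  | succ n ih =>
    have h1 : Init_S q w (n + 1) = Init_S q w n + Init_s q w n := by
      unfold Init_S
      rw [Finset.sum_range_succ]
    rw [h1]
    push_cast
    rcases Init_s_pm q w n with h | h
    · rw [h]
      obtain ⟨c, hc⟩ := ih
      exact ⟨c, by linarith⟩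
    · rw [h]
      obtain ⟨c, hc⟩ := ih
      exact ⟨c - 1, by linarith⟩

theorem Init_s_succ (q : ℕ) (w : ℤ → Bool) (k : ℕ) (h : ¬ q ∣ k + 1) :
    Init_s q w (k + 1) = Init_s q w k := by
  unfold Init_s
  have h1 : (((k + 1 : ℕ) : ℤ) / (q : ℤ)) = (k : ℤ) / (q : ℤ) := by
    rw [← Int.natCast_div, ← Int.natCast_div, Nat.succ_div, if_neg h, add_zero]
  rw [h1]

theorem Init_val (T : ℕ) [NeZero T] (hT : 1 < T) (y : ZMod T) :
    (y + 1).val = if y.val + 1 = T then 0 else y.val + 1 := by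
  have : Fact (1 < T) := ⟨hT⟩
  have h1 := ZMod.val_lt y
  rw [ZMod.val_add, ZMod.val_one]
  split_ifs with h
  · rw [h, Nat.mod_self]
  · exact Nat.mod_eq_of_lt (by omega)

theorem Init_sum (T : ℕ) [NeZero T] (f : ℕ → ℤ) :
    ∑ x : ZMod T, f x.val = ∑ k ∈ range T, f k := by
  refine Finset.sum_nbij' ZMod.val (fun k => (k : ZMod T)) ?_ ?_ ?_ ?_ ?_
  · intro x _
    exact Finset.mem_range.2 (ZMod.val_lt x)
  · intro k _
    exact Finset.mem_univ _
  · intro x _
    exact ZMod.natCast_zmod_val x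
  · intro k hk
    exact ZMod.val_cast_of_lt (Finset.mem_range.1 hk)
  · intro x _
    rfl

theorem init_stage (T0 q : ℕ) (hT0 : 0 < T0) (hq : 0 < q) (hq2 : 2 ∣ q) (w : ℤ → Bool)
    (hw : ∀ x, w (x + T0) = w x)
    (hbal : 2 * ((range T0).filter fun x : ℕ => w (x : ℤ) = true).card = T0) [NeZero (q * T0)] :
    ∃ v g0 : ZMod (q * T0) → ℤ, (∀ x, v x = 1 ∨ v x = -1) ∧
      (∀ x : ZMod (q * T0), w ((x.val : ℤ) / q) = true ↔ v x = 1) ∧
      Stage v g0 g0 v (fun x => v (x + 1)) v (fun _ _ => 0) 0 ∧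
      ∑ x, (1 - v x * v (x + 1)) ≤ 2 * (T0 : ℤ) := by
  have hT1 : 1 < q * T0 := by
    have h1 : 2 ≤ q := Nat.le_of_dvd hq hq2
    have h2 : q * 1 ≤ q * T0 := Nat.mul_le_mul_left q hT0
    omega
  obtain ⟨v, hv⟩ : ∃ v : ZMod (q * T0) → ℤ, ∀ x, v x = Init_s q w x.val := ⟨_, fun _ => rfl⟩
  obtain ⟨g0, hg0⟩ : ∃ g : ZMod (q * T0) → ℤ, ∀ x, g x = Init_S q w (x.val + 1) :=
    ⟨_, fun _ => rfl⟩
  have hS : ∀ n, Init_S q w (n + 1) = Init_S q w n + Init_s q w n := by
    intro n
    unfold Init_S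
    rw [Finset.sum_range_succ]
  have hpm : ∀ x, v x = 1 ∨ v x = -1 := fun x => by
    rw [hv]
    exact Init_s_pm q w _
  have hsq : ∀ x, v x ^ 2 = 1 := by
    intro x
    rcases hpm x with h | h <;> rw [h] <;> norm_num
  have hdiff : ∀ x, v x = g0 x - g0 (x - 1) := by
    intro x
    obtain ⟨y, rfl⟩ : ∃ y, x = y + 1 := ⟨x - 1, (sub_add_cancel x 1).symm⟩
    rw [add_sub_cancel_right, hv, hg0, hg0, Init_val (q * T0) hT1]
    split_ifs with h
    · rw [h, Init_S_zero T0 q hq w hbal, hS]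
      simp [Init_S]
    · rw [hS (y.val + 1)]
      ring
  have hchange : ∀ x, v (x + 1) ≠ v x → q ∣ x.val + 1 := by
    intro x hx
    by_contra h
    apply hx
    rw [hv, hv, Init_val (q * T0) hT1]
    split_ifs with h1
    · exact absurd ⟨T0, h1⟩ h
    · exact Init_s_succ q w _ h
  have hne : ∀ x, v x ≠ 0 := by
    intro x h
    rcases hpm x with h1 | h1 <;> rw [h1] at h <;> norm_num at h
  have hcard : ∑ x, v x ^ 2 = ((q * T0 : ℕ) : ℤ) := by
    rw [Finset.sum_congr rfl fun x _ => hsq x, Finset.sum_const, Finset.card_univ, ZMod.card,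
      nsmul_eq_mul, mul_one]
  refine ⟨v, g0, hpm, fun x => ?_, ?_, ?_⟩
  · rw [hv]
    exact Init_s_iff q w _
  · refine ⟨fun x => Or.inr (hpm x), hdiff, hdiff, fun x _ => ⟨rfl, rfl, rfl⟩, ?_, ?_, ?_, ?_, ?_,
      ?_, ?_⟩
    · refine ⟨fun x => hpm (x + 1), hpm, fun x h => absurd h (hne x), fun x h => absurd h (hne x),
        fun x _ => ?_, fun x _ => rfl⟩
      show v (x - 1 + 1) = v x
      rw [sub_add_cancel]
    · intro x hx
      have h1 : q ∣ x.val + 1 := hchange x hx
      have h2 : (2 : ℤ) ∣ ((x.val + 1 : ℕ) : ℤ) := by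
        have h3 : 2 ∣ x.val + 1 := hq2.trans h1
        exact_mod_cast h3
      have h4 := Init_S_parity q w (x.val + 1)
      rw [hg0, sub_zero]
      have h5 := dvd_add h4 h2
      rwa [sub_add_cancel] at h5
    · intro x y
      rfl
    · intro x y
      rw [hsq]
      norm_num
    · intro x y _
      rfl
    · rw [hcard]
      simp
    · refine le_of_eq (Finset.sum_congr rfl fun x _ => ?_)
      show 1 - v (x - 1 + 1) * v (x + 1) = _
      rw [sub_add_cancel]
  · have h1 : ∀ x : ZMod (q * T0), 1 - v x * v (x + 1) ≤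
        (fun k : ℕ => if q ∣ k + 1 then (2 : ℤ) else 0) x.val := by
      intro x
      show _ ≤ if q ∣ x.val + 1 then (2 : ℤ) else 0
      split_ifs with h
      · rcases hpm x with h2 | h2 <;> rcases hpm (x + 1) with h3 | h3 <;> rw [h2, h3] <;> norm_num
      · have h2 : v (x + 1) = v x := by
          by_contra h3
          exact h (hchange x h3)
        rw [h2]
        have h3 := hsq x
        nlinarith
    refine (Finset.sum_le_sum fun x _ => h1 x).trans ?_
    rw [Init_sum (q * T0) (fun k : ℕ => if q ∣ k + 1 then (2 : ℤ) else 0), Finset.sum_ite,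
      Finset.sum_const_zero, add_zero, Finset.sum_const, Nat.card_multiples,
      Nat.mul_div_cancel_left T0 hq, nsmul_eq_mul, mul_comm]

end Pool.Agent.H44.EP
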