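import Pool.Agent.H44.EP.Dual

/-!
# Row EP/Ker: the bound given by a stage

`φ : ZMod (K*T) → ZMod T` is `ZMod.castHom (dvd_mul_left T K) (ZMod T)`.
## sum_cast
Every fibre has `K` elements.  E.g. reindex `ZMod (K*T)` by `i = q * T + x.val` (`q < K`), or: both sides as sums over
`range` (`i.val`), `Finset.sum_range_add`-induction on `K` with `F` of the cast of `k : ℕ` to `ZMod T`.
## ker_cost
`x`-sum: `∑∑_{v x ≠ v j} (2 (1 - c x²) + 2 (1 - c j²) + N (x-1) (j-1) - N x j) = Z²`, `Z = T - ∑ c²`.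
`2 * [v x ≠ v j] = 1 - v x * v j`.  `∑∑ (N (x-1) (j-1) - N x j) = 0` (shift), `∑ v = 0` (`vg`, shift),
so twice the sum is `4 T Z - quad = 4 T Z - 2 (T² - S²) = 2 Z²`.
## stage_bound
`dual` with `z i = 1 - c (-(φ i))²`, `z' j = 1 - c j ²`, `M i j = N (-(φ i) - 1) j`;
`M (i-1) j = N (-(φ i)) j`.  `hp`: `cap` at the letter `x = -(φ i)` and lattice point `j`:
`2 z i + M i j - M (i-1) j = 2 (1 - c x²) + N (x-1) j - N x j`.
`hq`: `cap` at the letter `j` and lattice point `y = -(φ i) - 1`, with `symm`.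
Sums: `∑ z' = Z`, `∑ z = K Z` (`sum_cast` and `x ↦ -x`), and the last double sum is `K Z²` by `sum_cast`, `x ↦ -x`,
`ker_cost` (`σ i ≠ θ j ↔ v (-(φ i)) ≠ v j`).
-/

namespace Pool.Agent.H44.EP

open Finset Pool.Agent.H95.NP

theorem Ker_range {n : ℕ} [NeZero n] (f : ZMod n → ℤ) :
    ∑ i, f i = ∑ k ∈ range n, f (k : ZMod n) := by
  refine Finset.sum_bij (fun i _ => i.val) ?_ ?_ ?_ ?_
  · intro i _
    exact Finset.mem_range.2 (ZMod.val_lt i)
  · intro a _ b _ hab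
    exact ZMod.val_injective n hab
  · intro b hb
    exact ⟨(b : ZMod n), Finset.mem_univ _, ZMod.val_cast_of_lt (Finset.mem_range.1 hb)⟩
  · intro i _
    rw [ZMod.natCast_zmod_val]

theorem Ker_period {T : ℕ} (G : ℕ → ℤ) (hG : ∀ q k, G (q * T + k) = G k) (K : ℕ) :
    ∑ k ∈ range (K * T), G k = K * ∑ k ∈ range T, G k := by
  induction K with
  | zero => simp
  | succ K ih =>
    rw [Nat.succ_mul, Finset.sum_range_add, ih]
    have h1 : ∑ x ∈ range T, G (K * T + x) = ∑ x ∈ range T, G x :=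
      Finset.sum_congr rfl fun x _ => hG K x
    rw [h1]
    push_cast
    ring

theorem sum_cast {T : ℕ} [NeZero T] (K : ℕ) [NeZero (K * T)] (F : ZMod T → ℤ) :
    ∑ i : ZMod (K * T), F (ZMod.castHom (dvd_mul_left T K) (ZMod T) i) = K * ∑ x, F x := by
  rw [Ker_range, Ker_range F]
  rw [← Ker_period (T := T) (fun k => F (k : ZMod T)) (fun q k => by simp) K]
  refine Finset.sum_congr rfl fun k _ => ?_
  rw [map_natCast]

variable {T : ℕ} [NeZero T] {v g0 g c n p : ZMod T → ℤ} {N : ZMod T → ZMod T → ℤ} {κ : ℤ}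

theorem ker_cost (hv : ∀ x, v x = 1 ∨ v x = -1) (h : Stage v g0 g c n p N κ) :
    ∑ x, ∑ j, (if v x ≠ v j then 2 * (1 - c x ^ 2) + 2 * (1 - c j ^ 2) + N (x - 1) (j - 1) - N x j else 0)
      = ((T : ℤ) - ∑ x, c x ^ 2) ^ 2 := by
  have hv0 : ∑ x, v x = 0 := by
    have h1 : ∑ x, v x = ∑ x, (g0 x - g0 (x - 1)) := Finset.sum_congr rfl fun x _ => h.vg x
    rw [h1, Finset.sum_sub_distrib, sum_shift, sub_self]
  have hD : ∑ x, ∑ j, (N (x - 1) (j - 1) - N x j) = 0 := by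
    have h1 : ∑ x, ∑ j, (N (x - 1) (j - 1) - N x j)
        = ∑ x, ∑ j, N (x - 1) j - ∑ x, ∑ j, N x j := by
      rw [← Finset.sum_sub_distrib]
      refine Finset.sum_congr rfl fun x _ => ?_
      rw [Finset.sum_sub_distrib, sum_shift (fun j => N (x - 1) j)]
    rw [h1, sum_shift (fun x => ∑ j, N x j), sub_self]
  have hcard : (∑ _x : ZMod T, (1 : ℤ)) = T := by
    simp [ZMod.card]
  have key : 2 * ∑ x, ∑ j, (if v x ≠ v j then
      2 * (1 - c x ^ 2) + 2 * (1 - c j ^ 2) + N (x - 1) (j - 1) - N x j else 0)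
      = ∑ x, ∑ j, (2 * (1 - c x ^ 2) + 2 * (1 - c j ^ 2)) + ∑ x, ∑ j, (N (x - 1) (j - 1) - N x j)
        - ∑ x, ∑ j, (v x * (2 * (1 - c x ^ 2)) * v j) - ∑ x, ∑ j, (v x * (v j * (2 * (1 - c j ^ 2))))
        - ∑ x, ∑ j, v x * v j * (N (x - 1) (j - 1) - N x j) := by
    rw [Finset.mul_sum, ← Finset.sum_add_distrib, ← Finset.sum_sub_distrib,
      ← Finset.sum_sub_distrib, ← Finset.sum_sub_distrib]
    refine Finset.sum_congr rfl fun x _ => ?_
    rw [Finset.mul_sum, ← Finset.sum_add_distrib, ← Finset.sum_sub_distrib,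
      ← Finset.sum_sub_distrib, ← Finset.sum_sub_distrib]
    refine Finset.sum_congr rfl fun j _ => ?_
    rcases hv x with hx | hx <;> rcases hv j with hj | hj <;> rw [hx, hj] <;> norm_num <;> ring
  have hZ : ∑ j, (1 - c j ^ 2) = (T : ℤ) - ∑ x, c x ^ 2 := by
    rw [Finset.sum_sub_distrib, hcard]
  have e1 : ∑ x, ∑ j, (2 * (1 - c x ^ 2) + 2 * (1 - c j ^ 2))
      = 4 * T * ((T : ℤ) - ∑ x, c x ^ 2) := by
    have h1 : ∀ x, ∑ j, (2 * (1 - c x ^ 2) + 2 * (1 - c j ^ 2))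
        = 2 * T * (1 - c x ^ 2) + 2 * ((T : ℤ) - ∑ x, c x ^ 2) := by
      intro x
      have h2 : ∑ j, 2 * (1 - c j ^ 2) = 2 * ((T : ℤ) - ∑ x, c x ^ 2) := by
        rw [← Finset.mul_sum, hZ]
      rw [Finset.sum_add_distrib, h2, Finset.sum_const, Finset.card_univ,
        ZMod.card, nsmul_eq_mul]
      ring
    rw [Finset.sum_congr rfl fun x _ => h1 x, Finset.sum_add_distrib, ← Finset.mul_sum, hZ,
      Finset.sum_const, Finset.card_univ, ZMod.card, nsmul_eq_mul]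
    ring
  have e2 : ∑ x, ∑ j, (v x * (2 * (1 - c x ^ 2)) * v j) = 0 := by
    refine Finset.sum_eq_zero fun x _ => ?_
    rw [← Finset.mul_sum, hv0, mul_zero]
  have e3 : ∑ x, ∑ j, (v x * (v j * (2 * (1 - c j ^ 2)))) = 0 := by
    have h1 : ∀ x, ∑ j, (v x * (v j * (2 * (1 - c j ^ 2))))
        = v x * ∑ j, (v j * (2 * (1 - c j ^ 2))) := fun x => by rw [Finset.mul_sum]
    rw [Finset.sum_congr rfl fun x _ => h1 x, ← Finset.sum_mul, hv0, zero_mul]
  rw [e1, e2, e3, hD, h.quad] at key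
  generalize (∑ x, c x ^ 2) = S at *
  have : 2 * ∑ x, ∑ j, (if v x ≠ v j then
      2 * (1 - c x ^ 2) + 2 * (1 - c j ^ 2) + N (x - 1) (j - 1) - N x j else 0)
      = 2 * ((T : ℤ) - S) ^ 2 := by
    rw [key]; ring
  linarith

theorem stage_bound (hv : ∀ x, v x = 1 ∨ v x = -1) (h : Stage v g0 g c n p N κ) (K : ℕ) [NeZero (K * T)]
    {σ : ZMod (K * T) → Bool} {θ : ZMod T → Bool} {m A : ℤ} {U W : ZMod (K * T) → ZMod T → ℤ}
    (hTF : TF (K * T) T σ θ m A U W)
    (hσ : ∀ i, σ i = true ↔ v (-(ZMod.castHom (dvd_mul_left T K) (ZMod T) i)) = 1)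
    (hθ : ∀ j, θ j = true ↔ v j = 1) :
    4 * (A * ((T : ℤ) - ∑ x, c x ^ 2) + m * (K * ((T : ℤ) - ∑ x, c x ^ 2)))
      ≤ 8 * (m * (K * T) + A * T) - 4 * ((K * T) * T) + 2 * (K * ((T : ℤ) - ∑ x, c x ^ 2) ^ 2) := by
  set φ := ZMod.castHom (dvd_mul_left T K) (ZMod T) with hφ
  have hφ1 : ∀ i : ZMod (K * T), -(φ (i - 1)) - 1 = -(φ i) := by
    intro i
    rw [map_sub, map_one]
    ring
  have hd := dual hTF (fun i => 1 - c (-(φ i)) ^ 2) (fun j => 1 - c j ^ 2)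
    (fun i j => N (-(φ i) - 1) j)
    (by
      intro i j
      have h1 := h.cap (-(φ i)) j
      simp only [hφ1]
      exact h1)
    (by
      intro i j
      have h1 := h.cap j (-(φ i) - 1)
      rw [h.symm (j - 1), h.symm j] at h1
      exact h1)
  have hZ : ∑ j, (1 - c j ^ 2) = (T : ℤ) - ∑ x, c x ^ 2 := by
    rw [Finset.sum_sub_distrib]
    simp [ZMod.card]
  have hZ2 : ∑ i : ZMod (K * T), (1 - c (-(φ i)) ^ 2) = K * ((T : ℤ) - ∑ x, c x ^ 2) := by
    have h1 := sum_cast (T := T) K (fun y => 1 - c (-y) ^ 2)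
    rw [← hφ] at h1
    rw [h1, ← hZ]
    congr 1
    exact Fintype.sum_equiv (Equiv.neg _) _ _ (fun _ => rfl)
  have hst : ∀ i j, (σ i ≠ θ j ↔ v (-(φ i)) ≠ v j) := by
    intro i j
    have h1 := hσ i
    have h2 := hθ j
    rcases hv (-(φ i)) with ha | ha <;> rcases hv j with hb | hb
    · have h3 := h1.2 ha
      have h4 := h2.2 hb
      rw [h3, h4, ha, hb]
      simp
    · have h3 := h1.2 ha
      have h4 : ¬ θ j = true := fun h5 => by
        have := h2.1 h5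
        rw [hb] at this
        omega
      rw [h3, ha, hb]
      simp [h4]
    · have h4 := h2.2 hb
      have h3 : ¬ σ i = true := fun h5 => by
        have := h1.1 h5
        rw [ha] at this
        omega
      rw [h4, ha, hb]
      simp [h3]
    · have h3 : ¬ σ i = true := fun h5 => by
        have := h1.1 h5
        rw [ha] at this
        omega
      have h4 : ¬ θ j = true := fun h5 => by
        have := h2.1 h5
        rw [hb] at this
        omega
      rw [ha, hb]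
      rw [Bool.not_eq_true] at h3 h4
      rw [h3, h4]
      simp
  have hS : ∑ i, ∑ j, (if σ i ≠ θ j then 2 * (1 - c (-(φ i)) ^ 2) + 2 * (1 - c j ^ 2)
      + N (-(φ i) - 1) (j - 1) - N (-(φ (i - 1)) - 1) j else 0)
      = K * ((T : ℤ) - ∑ x, c x ^ 2) ^ 2 := by
    have h1 := sum_cast (T := T) K (fun y => ∑ j, (if v (-y) ≠ v j then
      2 * (1 - c (-y) ^ 2) + 2 * (1 - c j ^ 2) + N (-y - 1) (j - 1) - N (-y) j else 0))
    rw [← hφ] at h1
    have h2 : ∑ y : ZMod T, (∑ j, (if v (-y) ≠ v j then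
        2 * (1 - c (-y) ^ 2) + 2 * (1 - c j ^ 2) + N (-y - 1) (j - 1) - N (-y) j else 0))
        = ((T : ℤ) - ∑ x, c x ^ 2) ^ 2 := by
      rw [← ker_cost hv h]
      exact Fintype.sum_equiv (Equiv.neg _) _ _ (fun _ => rfl)
    rw [h2] at h1
    rw [← h1]
    refine Finset.sum_congr rfl fun i _ => Finset.sum_congr rfl fun j _ => ?_
    rw [hφ1]
    by_cases hc : σ i ≠ θ j
    · rw [if_pos hc, if_pos ((hst i j).1 hc)]
    · rw [if_neg hc, if_neg (fun h5 => hc ((hst i j).2 h5))]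
  rw [hZ, hZ2, hS] at hd
  push_cast at hd
  exact hd

end Pool.Agent.H44.EP
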