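import Mathlib

/-!
# Row EP/Num: real arithmetic

Divide `h` by `4 K T²` (`T, K > 0`): with `a = A / (K T)`, `b = m / T`, `ζ = (T - S) / T`:
`a ζ + b ζ ≤ 2 (a + b) - 1 + ζ²/2`, i.e. `(a + b) (2 - ζ) ≥ 1 - ζ²/2`; `a ≤ b` (`hA`) and `ζ ≤ 1`, so
`2 b (2 - ζ) ≥ 1 - ζ²/2 = (2 - √2) (2 - ζ) - (ζ - ζ₀)²/2`, `ζ₀ = 2 - √2`.  As `2 - ζ ≥ 1`:
`2 b ≥ 2 - √2 - (ζ - ζ₀)²/2`.  `τ ≤ S ≤ τ + D`, `τ = ⌈(√2 - 1) T⌉`, gives `|ζ - ζ₀| ≤ (D + 1)/T`.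
Here `T = q T0`, `m = q m0`, `D = 2 T0`: `2 m0 / T0 ≥ 2 - √2 - ((2 T0 + 1)/(q T0))²/2`.
`num_lim`: let `q → ∞` (`(2 T0 + 1)/(q T0) ≤ 3/q`; if `2 m0/T0 < 2 - √2` take `q` with `9/(2 q²)` less than the
difference, `q = 2 (k+1)`).
-/

namespace Pool.Agent.H44.EP

theorem num_one (T K : ℕ) (hT : 0 < T) (hK : 0 < K) (m A S D τ : ℤ) (hD : 0 ≤ D)
    (hA : T * A ≤ m * (K * T : ℕ)) (hS0 : 0 ≤ S) (hτ : τ = ⌈(Real.sqrt 2 - 1) * T⌉) (h1 : τ ≤ S) (h2 : S ≤ τ + D)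
    (h : 4 * (A * ((T : ℤ) - S) + m * (K * ((T : ℤ) - S)))
      ≤ 8 * (m * (K * T) + A * T) - 4 * ((K * T) * T) + 2 * (K * ((T : ℤ) - S) ^ 2)) :
    2 - Real.sqrt 2 - ((D + 1 : ℝ) / T) ^ 2 / 2 ≤ 2 * (m : ℝ) / T := by

  have hTR : (0 : ℝ) < T := by exact_mod_cast hT
  have hKR : (0 : ℝ) < K := by exact_mod_cast hK
  have hx : (0 : ℝ) ≤ S := by exact_mod_cast hS0
  have hDR : (0 : ℝ) ≤ D := by exact_mod_cast hD
  have hsq : Real.sqrt 2 * Real.sqrt 2 = 2 := Real.mul_self_sqrt (by norm_num)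
  have hAR : (T : ℝ) * A ≤ m * (K * T) := by exact_mod_cast hA
  have hAR' : (A : ℝ) ≤ m * K := by
    have h3 : (T : ℝ) * A ≤ T * (m * K) := by linarith
    exact le_of_mul_le_mul_left h3 hTR
  have hR : 4 * ((A : ℝ) * ((T : ℝ) - S) + m * (K * ((T : ℝ) - S)))
      ≤ 8 * (m * (K * T) + A * T) - 4 * ((K * T) * T) + 2 * (K * ((T : ℝ) - S) ^ 2) := by
    exact_mod_cast h
  have hc1 : (Real.sqrt 2 - 1) * T ≤ S := by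
    have h4 : (Real.sqrt 2 - 1) * T ≤ (τ : ℝ) := by
      rw [hτ]
      exact Int.le_ceil _
    have h5 : (τ : ℝ) ≤ S := by exact_mod_cast h1
    linarith
  have hc2 : (S : ℝ) ≤ (Real.sqrt 2 - 1) * T + (D + 1) := by
    have h4 : (τ : ℝ) < (Real.sqrt 2 - 1) * T + 1 := by
      rw [hτ]
      exact Int.ceil_lt_add_one _
    have h5 : (S : ℝ) ≤ τ + D := by exact_mod_cast h2
    linarith
  have hsq2 : ((Real.sqrt 2 - 1) * T - S) ^ 2 ≤ ((D : ℝ) + 1) ^ 2 := by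
    have h6 : (0 : ℝ) ≤ S - (Real.sqrt 2 - 1) * T := by linarith
    have h7 : (S : ℝ) - (Real.sqrt 2 - 1) * T ≤ D + 1 := by linarith
    nlinarith
  have key0 : 0 ≤ (K : ℝ) * (2 * m * (2 * T - (T - S)) - (T ^ 2 - ((T : ℝ) - S) ^ 2 / 2)) := by
    have h8 : (A : ℝ) * (2 * T - (T - S)) ≤ (m * K) * (2 * T - (T - S)) :=
      mul_le_mul_of_nonneg_right hAR' (by linarith)
    nlinarith
  have key1 : 0 ≤ (2 * m * (2 * T - (T - S)) - (T ^ 2 - ((T : ℝ) - S) ^ 2 / 2)) :=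
    nonneg_of_mul_nonneg_right key0 hKR
  have key2 : -(((D : ℝ) + 1) ^ 2 / 2) ≤ (2 * m - (2 - Real.sqrt 2) * T) * (2 * T - (T - S)) := by
    have h9 : (T : ℝ) ^ 2 - ((T : ℝ) - S) ^ 2 / 2
        = (2 - Real.sqrt 2) * T * (2 * T - (T - S)) - ((Real.sqrt 2 - 1) * T - S) ^ 2 / 2 := by
      have : Real.sqrt 2 ^ 2 = 2 := by rw [pow_two]; exact hsq
      linear_combination ((T : ℝ) ^ 2 / 2) * this
    nlinarith
  have key3 : -(((D : ℝ) + 1) ^ 2 / 2) ≤ (2 * m - (2 - Real.sqrt 2) * T) * T := by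
    rcases le_total 0 (2 * (m : ℝ) - (2 - Real.sqrt 2) * T) with h10 | h10
    · have h11 : 0 ≤ (2 * (m : ℝ) - (2 - Real.sqrt 2) * T) * T := mul_nonneg h10 hTR.le
      have h12 : 0 ≤ (((D : ℝ) + 1) ^ 2 / 2) := by positivity
      linarith
    · have h11 : (2 * (m : ℝ) - (2 - Real.sqrt 2) * T) * (2 * T - (T - S))
          ≤ (2 * (m : ℝ) - (2 - Real.sqrt 2) * T) * T :=
        mul_le_mul_of_nonpos_left (by linarith) h10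
      linarith
  rw [le_div_iff₀ hTR]
  have h13 : (2 - Real.sqrt 2 - ((D + 1 : ℝ) / T) ^ 2 / 2) * T * T
      = (2 - Real.sqrt 2) * T * T - (D + 1) ^ 2 / 2 := by
    field_simp
  have h14 : (2 - Real.sqrt 2 - ((D + 1 : ℝ) / T) ^ 2 / 2) * T * T ≤ 2 * m * T := by
    rw [h13]
    linarith
  exact le_of_mul_le_mul_right h14 hTR

theorem num_lim (T0 : ℕ) (hT0 : 0 < T0) (m0 : ℕ)
    (h : ∀ k : ℕ, 2 - Real.sqrt 2 - ((2 * T0 + 1 : ℝ) / ((2 * (k + 1)) * T0)) ^ 2 / 2 ≤ 2 * (m0 : ℝ) / T0) :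
    (2 - Real.sqrt 2) * T0 ≤ 2 * m0 := by

  by_contra hcon
  push Not at hcon
  have hT : (0 : ℝ) < T0 := by exact_mod_cast hT0
  have hT1 : (1 : ℝ) ≤ T0 := by exact_mod_cast hT0
  have hδ : 0 < 2 - Real.sqrt 2 - 2 * (m0 : ℝ) / T0 := by
    rw [sub_pos, div_lt_iff₀ hT]
    exact hcon
  obtain ⟨k, hk⟩ := exists_nat_one_div_lt (show 0 < (2 - Real.sqrt 2 - 2 * (m0 : ℝ) / T0) * (8 / 9) by positivity)
  have h1 := h k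
  have hk1 : (1 : ℝ) ≤ (k : ℝ) + 1 := by
    have : (0 : ℝ) ≤ (k : ℝ) := Nat.cast_nonneg k
    linarith
  have h2 : ((2 * T0 + 1 : ℝ) / ((2 * (k + 1)) * T0)) ≤ 3 / 2 * (1 / ((k : ℝ) + 1)) := by
    rw [div_le_iff₀ (by positivity)]
    have h3 : 3 / 2 * (1 / ((k : ℝ) + 1)) * (2 * ((k : ℝ) + 1) * T0) = 3 * T0 := by
      field_simp
    rw [h3]
    linarith
  have h3 : 0 ≤ ((2 * T0 + 1 : ℝ) / ((2 * (k + 1)) * T0)) := by positivity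
  have h4 : (1 / ((k : ℝ) + 1)) ≤ 1 := by
    rw [div_le_iff₀ (by linarith)]
    linarith
  have h5 : 0 ≤ (1 / ((k : ℝ) + 1)) := by positivity
  have h6 : ((2 * T0 + 1 : ℝ) / ((2 * (k + 1)) * T0)) ^ 2 ≤ (3 / 2 * (1 / ((k : ℝ) + 1))) ^ 2 :=
    pow_le_pow_left₀ h3 h2 2
  nlinarith

end Pool.Agent.H44.EP
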