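import Pool.Agent.H95.NP.Defs

/-!
# Row EP/Rf: nested matchings of the word with repeated letters

From `x y : ℕ → ℤ` (nested matching with `R` edges in the repeated word of period `q * T0`) take
`x' t = x (q t) / q`, `y' t = y (q t) / q` (floor division) for `t < m`, `m = (R + q - 1) / q`; then `q * t < R` for
`t < m` and `R ≤ q * m`.  `x (q (t+1)) ≤ x (q t) - q` (strictly decreasing integers), so `x' (t+1) < x' t`; likewise
for `y'`.  `x' t ≤ y' t` and `y' t ≤ x' t + T0` (from `y < x + q T0`); equality is impossible in both because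
`w (x' t) ≠ w (y' t)` and `w` has period `T0`.
Also: the repeated word is periodic with period `q * T0` and balanced.
-/

namespace Pool.Agent.H44.EP

open Finset Pool.Agent.H95.NP

theorem Rf_dec (x : ℕ → ℤ) (R : ℕ) (h : ∀ s t, s < t → t < R → x t < x s) (s : ℕ) :
    ∀ d : ℕ, s + d < R → x (s + d) ≤ x s - d := by
  intro d
  induction d with
  | zero => intro _; simp
  | succ d ih =>
    intro hd
    have h1 := ih (by omega)
    have h2 := h (s + d) (s + (d + 1)) (by omega) hd
    push_cast
    omega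

theorem Rf_inc (x : ℕ → ℤ) (R : ℕ) (h : ∀ s t, s < t → t < R → x s < x t) (s : ℕ) :
    ∀ d : ℕ, s + d < R → x s + d ≤ x (s + d) := by
  intro d
  induction d with
  | zero => intro _; simp
  | succ d ih =>
    intro hd
    have h1 := ih (by omega)
    have h2 := h (s + d) (s + (d + 1)) (by omega) hd
    push_cast
    omega

theorem nested_rep (T0 q : ℕ) (hq : 0 < q) (w : ℤ → Bool) (hw : ∀ x, w (x + T0) = w x) (R : ℕ)
    (h : Nested ((q * T0 : ℕ) : ℤ) (fun x => w (x / q)) R) :
    ∃ m : ℕ, Nested (T0 : ℤ) w m ∧ R ≤ q * m := by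
  obtain ⟨x, y, hxy, hw2⟩ := h
  have hqz : (0 : ℤ) < (q : ℤ) := by exact_mod_cast hq
  have hx : ∀ s t, s < t → t < R → x t < x s := fun s t h1 h2 => (hxy s t h1 h2).1
  have hy : ∀ s t, s < t → t < R → y s < y t := fun s t h1 h2 => (hxy s t h1 h2).2
  have hm : ∀ t, t < (R + q - 1) / q → q * t < R := by
    intro t ht
    have h1 : t + 1 ≤ (R + q - 1) / q := ht
    rw [Nat.le_div_iff_mul_le hq] at h1
    have h2 : (t + 1) * q = q * t + q := by ring
    omega
  refine ⟨(R + q - 1) / q, ⟨fun t => x (q * t) / q, fun t => y (q * t) / q, ?_, ?_⟩, ?_⟩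
  · intro s t hst ht
    have h1 := hm t ht
    obtain ⟨k, rfl⟩ : ∃ k, t = s + (k + 1) := ⟨t - s - 1, by omega⟩
    have h2 : q * (s + (k + 1)) = q * s + (q * k + q) := by ring
    rw [h2] at h1
    have h3 := Rf_dec x R hx (q * s) (q * k + q) h1
    have h4 := Rf_inc y R hy (q * s) (q * k + q) h1
    have hk : (0 : ℤ) ≤ (q : ℤ) * k := by positivity
    push_cast at h3 h4
    constructor
    · show x (q * (s + (k + 1))) / q < x (q * s) / q
      rw [h2]
      have h5 : x (q * s + (q * k + q)) / (q : ℤ) ≤ (x (q * s) - q) / q :=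
        Int.ediv_le_ediv hqz (by linarith)
      have h6 : (x (q * s) - q) / (q : ℤ) = x (q * s) / q - 1 := by
        have := Int.add_mul_ediv_right (x (q * s)) (-1) (ne_of_gt hqz)
        rw [neg_one_mul, ← sub_eq_add_neg] at this
        rw [this]
        ring
      omega
    · show y (q * s) / q < y (q * (s + (k + 1))) / q
      rw [h2]
      have h5 : (y (q * s) + q) / (q : ℤ) ≤ y (q * s + (q * k + q)) / q :=
        Int.ediv_le_ediv hqz (by linarith)
      have h6 : (y (q * s) + q) / (q : ℤ) = y (q * s) / q + 1 := by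
        have := Int.add_mul_ediv_right (y (q * s)) 1 (ne_of_gt hqz)
        rw [one_mul] at this
        exact this
      omega
  · intro t ht
    have h1 := hm t ht
    obtain ⟨h2, h3, h4⟩ := hw2 (q * t) h1
    have h4' : w (x (q * t) / q) ≠ w (y (q * t) / q) := h4
    have h5 : x (q * t) / (q : ℤ) ≤ y (q * t) / q := Int.ediv_le_ediv hqz h2.le
    have h6 : y (q * t) / (q : ℤ) ≤ (x (q * t) + T0 * q) / q := by
      refine Int.ediv_le_ediv hqz ?_
      push_cast at h3
      linarith
    rw [Int.add_mul_ediv_right _ _ (ne_of_gt hqz)] at h6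
    refine ⟨?_, ?_, h4'⟩
    · show x (q * t) / (q : ℤ) < y (q * t) / q
      refine lt_of_le_of_ne h5 fun he => h4' ?_
      rw [he]
    · show y (q * t) / (q : ℤ) < x (q * t) / q + T0
      refine lt_of_le_of_ne h6 fun he => h4' ?_
      rw [he, hw]
  · have h1 := Nat.div_add_mod (R + q - 1) q
    have h2 := Nat.mod_lt (R + q - 1) hq
    omega

theorem rep_periodic (T0 q : ℕ) (hq : 0 < q) (w : ℤ → Bool) (hw : ∀ x, w (x + T0) = w x) (x : ℤ) :
    (fun x : ℤ => w (x / q)) (x + (q * T0 : ℕ)) = (fun x : ℤ => w (x / q)) x := by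
  have hqz : (0 : ℤ) < (q : ℤ) := by exact_mod_cast hq
  show w ((x + ((q * T0 : ℕ) : ℤ)) / q) = w (x / q)
  push_cast
  rw [mul_comm (q : ℤ) (T0 : ℤ), Int.add_mul_ediv_right _ _ (ne_of_gt hqz), hw]

theorem Rf_card (q : ℕ) (hq : 0 < q) (w : ℤ → Bool) (T0 : ℕ) :
    ((range (q * T0)).filter fun x : ℕ => w ((x : ℤ) / q) = true).card
      = q * ((range T0).filter fun x : ℕ => w (x : ℤ) = true).card := by
  induction T0 with
  | zero => simp
  | succ T0 ih =>
    rw [Finset.range_add_one, Finset.filter_insert, mul_add, mul_one, Finset.card_filter,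
      Finset.sum_range_add, ← Finset.card_filter, ih]
    have h1 : ∀ i ∈ range q, (if w (((q * T0 + i : ℕ) : ℤ) / q) = true then 1 else 0)
        = (if w (T0 : ℤ) = true then 1 else 0) := by
      intro i hi
      rw [Finset.mem_range] at hi
      have h2 : (((q * T0 + i : ℕ) : ℤ) / q) = T0 := by
        have h3 : (q * T0 + i) / q = T0 := by
          rw [Nat.add_comm, Nat.add_mul_div_left _ _ hq, Nat.div_eq_of_lt hi, zero_add]
        exact_mod_cast congrArg (Nat.cast : ℕ → ℤ) h3
      rw [h2]
    rw [Finset.sum_congr rfl h1, Finset.sum_const, Finset.card_range]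
    by_cases h : w (T0 : ℤ) = true
    · rw [if_pos h, if_pos h, Finset.card_insert_of_notMem (by simp)]
      simp only [smul_eq_mul, mul_one]
      ring
    · rw [if_neg h, if_neg h]
      simp

theorem rep_balanced (T0 q : ℕ) (hq : 0 < q) (w : ℤ → Bool)
    (hbal : 2 * ((range T0).filter fun x : ℕ => w (x : ℤ) = true).card = T0) :
    2 * ((range (q * T0)).filter fun x : ℕ => w ((x : ℤ) / q) = true).card = q * T0 := by
  rw [Rf_card q hq w T0]
  calc 2 * (q * ((range T0).filter fun x : ℕ => w (x : ℤ) = true).card)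
      = q * (2 * ((range T0).filter fun x : ℕ => w (x : ℤ) = true).card) := by ring
    _ = q * T0 := by rw [hbal]

end Pool.Agent.H44.EP
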