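import Pool.Agent.H44.EP.Iter
import Pool.Agent.H44.EP.Ker
import Pool.Agent.H44.EP.Tf
import Pool.Agent.H44.EP.Init
import Pool.Agent.H44.EP.Rf
import Pool.Agent.H44.EP.Num

/-!
# The sharp combinatorial theorem: nested alternating matchings with at least `(2 - √2) n` edges
-/

namespace Pool.Agent.H44.EP

open Finset Pool.Agent.H95.NP

theorem two_mul_le_of_nested {T : ℤ} {w : ℤ → Bool} {r : ℕ} (hT : 0 ≤ T) (h : Nested T w r) :
    2 * (r : ℤ) ≤ T := by
  obtain ⟨x, y, h1, h2⟩ := h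
  rcases Nat.eq_zero_or_pos r with hr | hr
  · subst hr; simpa using hT
  · have key : ∀ t, t < r → x t + (2 * t + 1) ≤ y t := by
      intro t
      induction t with
      | zero =>
        intro ht
        have := (h2 0 ht).1
        simp only [Nat.cast_zero, mul_zero, zero_add]
        omega
      | succ t ih =>
        intro ht
        have e1 := ih (by omega)
        have e2 := h1 t (t + 1) (by omega) ht
        push_cast
        omega
    have e3 := key (r - 1) (by omega)
    have e4 := (h2 (r - 1) (by omega)).2.1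
    have e5 : ((r - 1 : ℕ) : ℤ) = (r : ℤ) - 1 := by omega
    rw [e5] at e3
    omega

theorem periodic_congr {T : ℕ} {F : ℤ → Bool} (hF : ∀ x, F (x + T) = F x) {a b : ℤ}
    (hab : (a : ZMod T) = (b : ZMod T)) : F a = F b := by
  rw [ZMod.intCast_eq_intCast_iff] at hab
  obtain ⟨k, hk⟩ := hab.dvd
  have hp : Function.Periodic F (T : ℤ) := hF
  have h1 := hp.int_mul k a
  rw [← h1]
  congr 1
  simp only [Int.cast_id]
  linarith

theorem core_sharp (n : ℕ) (hn : 1 ≤ n) (w : ℤ → Bool) (hw : ∀ x, w (x + (2 * n : ℕ)) = w x)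
    (hbal : ((range (2 * n)).filter fun x : ℕ => w (x : ℤ) = true).card = n) :
    ∃ m : ℕ, Nested ((2 * n : ℕ) : ℤ) w m ∧ (2 - Real.sqrt 2) * n ≤ m := by
  classical
  obtain ⟨T0, hT0d⟩ : ∃ T0, T0 = 2 * n := ⟨_, rfl⟩
  have hT0 : 0 < T0 := by omega
  rw [← hT0d] at hw hbal ⊢
  have hbal2 : 2 * ((range T0).filter fun x : ℕ => w (x : ℤ) = true).card = T0 := by omega
  have h0 : Nested (T0 : ℤ) w 0 :=
    ⟨fun _ => 0, fun _ => 0, fun s t _ ht => by omega, fun t ht => by omega⟩
  set m := Nat.findGreatest (fun r => Nested (T0 : ℤ) w r) T0 with hm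
  have hspec : Nested (T0 : ℤ) w m :=
    Nat.findGreatest_spec (P := fun r => Nested (T0 : ℤ) w r) (Nat.zero_le T0) h0
  have hle := two_mul_le_of_nested (by positivity) hspec
  have hmax : ∀ r : ℕ, Nested (T0 : ℤ) w r → r ≤ m := by
    intro r hr
    have h1 := two_mul_le_of_nested (by positivity) hr
    exact Nat.le_findGreatest (by omega) hr
  refine ⟨m, hspec, ?_⟩
  have hlim : (2 - Real.sqrt 2) * T0 ≤ 2 * m := by
    apply num_lim T0 hT0 m
    intro k
    set q := 2 * (k + 1) with hq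
    have hq0 : 0 < q := by omega
    have : NeZero (q * T0) := ⟨(Nat.mul_pos hq0 hT0).ne'⟩
    have hqT : 0 < q * T0 := Nat.mul_pos hq0 hT0
    obtain ⟨K, hK, σ, θ, A, U, W, hTF, hTA, hσ, hθ⟩ := exists_TF' (q * T0) ((q * m : ℕ) : ℤ)
      (fun x => w (x / q)) (by positivity) (by
        have : q * m ≤ q * T0 := Nat.mul_le_mul_left q (by omega)
        exact_mod_cast this)
      (rep_periodic T0 q hq0 w hw) (rep_balanced T0 q hq0 w hbal2) (by
        intro R hR
        obtain ⟨m', hm', hRm⟩ := nested_rep T0 q hq0 w hw R hR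
        have h1 := hmax m' hm'
        have h2 : R ≤ q * m := hRm.trans (Nat.mul_le_mul_left q h1)
        exact_mod_cast h2)
    have hK0 : 0 < K := by
      rcases Nat.eq_zero_or_pos K with h | h
      · subst h; exact absurd (zero_mul _) hK.ne
      · exact h
    obtain ⟨v, g0, hv, hvw, hst, hD⟩ := init_stage T0 q hT0 hq0 ⟨k + 1, hq⟩ w hw hbal2
    set τ : ℤ := ⌈(Real.sqrt 2 - 1) * ((q * T0 : ℕ) : ℝ)⌉ with hτ
    have hs1 : 1 ≤ Real.sqrt 2 := by
      rw [show (1 : ℝ) = Real.sqrt 1 by simp]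
      exact Real.sqrt_le_sqrt (by norm_num)
    have hs2 : Real.sqrt 2 ≤ 2 := by
      rw [Real.sqrt_le_left (by norm_num)]; norm_num
    have hTpos : (0 : ℝ) < ((q * T0 : ℕ) : ℝ) := by exact_mod_cast hqT
    have hτ0 : 0 ≤ τ := Int.ceil_nonneg (mul_nonneg (by linarith) hTpos.le)
    have hτT : τ ≤ ∑ x, v x ^ 2 := by
      have h1 : ∑ x, v x ^ 2 = ((q * T0 : ℕ) : ℤ) := by
        have h2 : ∀ x, v x ^ 2 = 1 := by
          intro x
          rcases hv x with h | h <;> rw [h] <;> norm_num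
        simp only [h2, sum_const, card_univ, ZMod.card, nsmul_eq_mul, mul_one]
      rw [h1, hτ, Int.ceil_le]
      have : (Real.sqrt 2 - 1) * ((q * T0 : ℕ) : ℝ) ≤ 1 * ((q * T0 : ℕ) : ℝ) :=
        mul_le_mul_of_nonneg_right (by linarith) hTpos.le
      rw [one_mul] at this
      exact_mod_cast this
    obtain ⟨g', c', n', p', N', κ', hst', hS1, hS2⟩ := iter hv hst τ hτ0 hτT
    have hsb := stage_bound hv hst' K hTF (by
      intro i
      rw [hσ i, ← hvw]
      have e : w (-(i.val : ℤ) / q) =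
          w (((-(ZMod.castHom (dvd_mul_left (q * T0) K) (ZMod (q * T0)) i)).val : ℤ) / q) := by
        apply periodic_congr (F := fun x => w (x / q)) (rep_periodic T0 q hq0 w hw)
        push_cast
        rw [ZMod.natCast_zmod_val]
        congr 1
        rw [ZMod.castHom_apply, ZMod.natCast_val]
      rw [e]) (by
      intro j
      rw [hθ j, ← hvw])
    have hnum := num_one (q * T0) K hqT hK0 ((q * m : ℕ) : ℤ) A (∑ x, c' x ^ 2) (2 * (T0 : ℤ)) τ
      (by positivity) hTA (Finset.sum_nonneg fun x _ => sq_nonneg _) hτ hS1 (by linarith) hsb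
    have e1 : (2 : ℝ) * (((q * m : ℕ) : ℤ) : ℝ) / ((q * T0 : ℕ) : ℝ) = 2 * (m : ℝ) / T0 := by
      have h1 : (q : ℝ) ≠ 0 := by exact_mod_cast hq0.ne'
      have h2 : (T0 : ℝ) ≠ 0 := by exact_mod_cast hT0.ne'
      push_cast
      field_simp
    rw [e1] at hnum
    have e2 : ((((2 * (T0 : ℤ) : ℤ) : ℝ) + 1) / ((q * T0 : ℕ) : ℝ)) =
        (2 * T0 + 1 : ℝ) / ((2 * (k + 1)) * T0) := by
      rw [hq]; push_cast; ring
    rw [e2] at hnum
    exact hnum
  have h2n : (T0 : ℝ) = 2 * n := by rw [hT0d]; push_cast; ring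
  rw [h2n] at hlim
  linarith

end Pool.Agent.H44.EP
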