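import Pool.Agent.H44.EP.Defs

/-!
# Row EP/Cyc: cyclic induction, existence of next/previous functions

## cyc_right
Every `x` can be moved by `+1` steps to a point of `Z`: with `z` in `Z`, `z = x + k` with `k : ℕ` (`k = (z - x).val`);
induct on `k` (statement: for all `k` and all `x`, `Z (x + k) → P x`; either `Z x`, or use `h2` and the
induction hypothesis at `x + 1`).  `cyc_left`: the same with `x - k`.

## exists_NPf
If `c = 0` take `n = p = 1`.  Otherwise `n x := c (x + 1 + k)` with `k` minimal such that this is nonzero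
(`Nat.find`; exists by `k = (z - x - 1).val`), `p x := c (x - k)` with `k` minimal such that this is nonzero.
`n0`: if `c x = 0` the minimal `k` for `x - 1` is one more than the one for `x`.
-/

namespace Pool.Agent.H44.EP

open Finset

theorem cyc_right {T : ℕ} [NeZero T] (P Z : ZMod T → Prop) (hZ : ∃ x, Z x) (h1 : ∀ x, Z x → P x)
    (h2 : ∀ x, ¬ Z x → P (x + 1) → P x) : ∀ x, P x := by
  obtain ⟨z, hz⟩ := hZ
  have key : ∀ k : ℕ, ∀ x : ZMod T, Z (x + (k : ZMod T)) → P x := by
    intro k
    induction k with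
    | zero =>
      intro x hx
      apply h1
      simpa using hx
    | succ k ih =>
      intro x hx
      by_cases hZx : Z x
      · exact h1 x hZx
      · apply h2 x hZx
        apply ih
        have e : x + 1 + (k : ZMod T) = x + ((k + 1 : ℕ) : ZMod T) := by
          push_cast
          ring
        rw [e]
        exact hx
  intro x
  apply key (z - x).val x
  have e : x + (((z - x).val : ℕ) : ZMod T) = z := by
    rw [ZMod.natCast_zmod_val]
    ring
  rw [e]
  exact hz

theorem cyc_left {T : ℕ} [NeZero T] (P Z : ZMod T → Prop) (hZ : ∃ x, Z x) (h1 : ∀ x, Z x → P x)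
    (h2 : ∀ x, ¬ Z x → P (x - 1) → P x) : ∀ x, P x := by
  obtain ⟨z, hz⟩ := hZ
  have key : ∀ k : ℕ, ∀ x : ZMod T, Z (x - (k : ZMod T)) → P x := by
    intro k
    induction k with
    | zero =>
      intro x hx
      apply h1
      simpa using hx
    | succ k ih =>
      intro x hx
      by_cases hZx : Z x
      · exact h1 x hZx
      · apply h2 x hZx
        apply ih
        have e : x - 1 - (k : ZMod T) = x - ((k + 1 : ℕ) : ZMod T) := by
          push_cast
          ring
        rw [e]
        exact hx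
  intro x
  apply key (x - z).val x
  have e : x - (((x - z).val : ℕ) : ZMod T) = z := by
    rw [ZMod.natCast_zmod_val]
    ring
  rw [e]
  exact hz

theorem Cyc_min (q : ℕ → Prop) (h : ∃ k, q k) : ∃ k, q k ∧ ∀ j, j < k → ¬ q j := by
  classical
  exact ⟨Nat.find h, Nat.find_spec h, fun j hj => Nat.find_min h hj⟩

theorem Cyc_uniq (q : ℕ → Prop) (a b : ℕ) (ha : q a) (hb : q b) (ha' : ∀ j, j < a → ¬ q j)
    (hb' : ∀ j, j < b → ¬ q j) : a = b := by
  rcases lt_trichotomy a b with h | h | h
  · exact absurd ha (hb' a h)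
  · exact h
  · exact absurd hb (ha' b h)

theorem Cyc_n {T : ℕ} [NeZero T] (c : ZMod T → ℤ) (z : ZMod T) (hz : c z ≠ 0)
    (hc : ∀ x, c x = 0 ∨ c x = 1 ∨ c x = -1) :
    ∃ n : ZMod T → ℤ, (∀ x, n x = 1 ∨ n x = -1) ∧ (∀ x, c x = 0 → n x = n (x - 1)) ∧
      (∀ x, c x ≠ 0 → n (x - 1) = c x) := by
  have hex : ∀ x : ZMod T, ∃ k : ℕ, c (x + 1 + (k : ZMod T)) ≠ 0 ∧
      ∀ j : ℕ, j < k → ¬ c (x + 1 + (j : ZMod T)) ≠ 0 := by
    intro x
    apply Cyc_min (fun k : ℕ => c (x + 1 + (k : ZMod T)) ≠ 0)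
    refine ⟨(z - x - 1).val, ?_⟩
    have e : x + 1 + (((z - x - 1).val : ℕ) : ZMod T) = z := by
      rw [ZMod.natCast_zmod_val]
      ring
    show c (x + 1 + (((z - x - 1).val : ℕ) : ZMod T)) ≠ 0
    rw [e]
    exact hz
  choose k hk hmin using hex
  refine ⟨fun x => c (x + 1 + (k x : ZMod T)), ?_, ?_, ?_⟩
  · intro x
    rcases hc (x + 1 + (k x : ZMod T)) with h | h | h
    · exact absurd h (hk x)
    · exact Or.inl h
    · exact Or.inr h
  · intro x hx
    show c (x + 1 + (k x : ZMod T)) = c (x - 1 + 1 + (k (x - 1) : ZMod T))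
    have h0 : k (x - 1) ≠ 0 := by
      intro h0
      have h3 := hk (x - 1)
      rw [h0] at h3
      apply h3
      have e : x - 1 + 1 + ((0 : ℕ) : ZMod T) = x := by
        push_cast
        ring
      rw [e]
      exact hx
    obtain ⟨m, hm⟩ := Nat.exists_eq_succ_of_ne_zero h0
    have e1 : ∀ j : ℕ, x - 1 + 1 + ((j + 1 : ℕ) : ZMod T) = x + 1 + (j : ZMod T) := by
      intro j
      push_cast
      ring
    have hm' : k (x - 1) = m + 1 := hm
    have hkm : k x = m := by
      apply Cyc_uniq (fun i : ℕ => c (x + 1 + (i : ZMod T)) ≠ 0) (k x) m (hk x)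
      · have h3 := hk (x - 1)
        rw [hm', e1] at h3
        exact h3
      · exact hmin x
      · intro j hj
        have h3 := hmin (x - 1) (j + 1) (by omega)
        rw [e1] at h3
        exact h3
    rw [hkm, hm', e1]
  · intro x hx
    show c (x - 1 + 1 + (k (x - 1) : ZMod T)) = c x
    have e : x - 1 + 1 + ((0 : ℕ) : ZMod T) = x := by
      push_cast
      ring
    have h0 : k (x - 1) = 0 := by
      by_contra h0
      have h3 := hmin (x - 1) 0 (Nat.pos_of_ne_zero h0)
      rw [e] at h3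
      exact h3 hx
    rw [h0, e]

theorem Cyc_p {T : ℕ} [NeZero T] (c : ZMod T → ℤ) (z : ZMod T) (hz : c z ≠ 0)
    (hc : ∀ x, c x = 0 ∨ c x = 1 ∨ c x = -1) :
    ∃ p : ZMod T → ℤ, (∀ x, p x = 1 ∨ p x = -1) ∧ (∀ x, c x = 0 → p x = p (x - 1)) ∧
      (∀ x, c x ≠ 0 → p x = c x) := by
  have hex : ∀ x : ZMod T, ∃ k : ℕ, c (x - (k : ZMod T)) ≠ 0 ∧
      ∀ j : ℕ, j < k → ¬ c (x - (j : ZMod T)) ≠ 0 := by
    intro x
    apply Cyc_min (fun k : ℕ => c (x - (k : ZMod T)) ≠ 0)
    refine ⟨(x - z).val, ?_⟩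
    have e : x - (((x - z).val : ℕ) : ZMod T) = z := by
      rw [ZMod.natCast_zmod_val]
      ring
    show c (x - (((x - z).val : ℕ) : ZMod T)) ≠ 0
    rw [e]
    exact hz
  choose k hk hmin using hex
  refine ⟨fun x => c (x - (k x : ZMod T)), ?_, ?_, ?_⟩
  · intro x
    rcases hc (x - (k x : ZMod T)) with h | h | h
    · exact absurd h (hk x)
    · exact Or.inl h
    · exact Or.inr h
  · intro x hx
    show c (x - (k x : ZMod T)) = c (x - 1 - (k (x - 1) : ZMod T))
    have h0 : k x ≠ 0 := by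
      intro h0
      have h3 := hk x
      rw [h0] at h3
      apply h3
      have e : x - ((0 : ℕ) : ZMod T) = x := by
        push_cast
        ring
      rw [e]
      exact hx
    obtain ⟨m, hm⟩ := Nat.exists_eq_succ_of_ne_zero h0
    have e1 : ∀ j : ℕ, x - ((j + 1 : ℕ) : ZMod T) = x - 1 - (j : ZMod T) := by
      intro j
      push_cast
      ring
    have hm' : k x = m + 1 := hm
    have hkm : k (x - 1) = m := by
      apply Cyc_uniq (fun i : ℕ => c (x - 1 - (i : ZMod T)) ≠ 0) (k (x - 1)) m (hk (x - 1))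
      · have h3 := hk x
        rw [hm', e1] at h3
        exact h3
      · exact hmin (x - 1)
      · intro j hj
        have h3 := hmin x (j + 1) (by omega)
        rw [e1] at h3
        exact h3
    rw [hkm, hm', e1]
  · intro x hx
    show c (x - (k x : ZMod T)) = c x
    have e : x - ((0 : ℕ) : ZMod T) = x := by
      push_cast
      ring
    have h0 : k x = 0 := by
      by_contra h0
      have h3 := hmin x 0 (Nat.pos_of_ne_zero h0)
      rw [e] at h3
      exact h3 hx
    rw [h0, e]

theorem exists_NPf {T : ℕ} [NeZero T] (c : ZMod T → ℤ) (hc : ∀ x, c x = 0 ∨ c x = 1 ∨ c x = -1) :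
    ∃ n p, NPf c n p := by
  by_cases hall : ∀ x, c x = 0
  · refine ⟨fun _ => 1, fun _ => 1, ?_, ?_, ?_, ?_, ?_, ?_⟩
    · intro x
      exact Or.inl rfl
    · intro x
      exact Or.inl rfl
    · intro x _
      rfl
    · intro x _
      rfl
    · intro x hx
      exact absurd (hall x) hx
    · intro x hx
      exact absurd (hall x) hx
  · obtain ⟨z, hz⟩ := not_forall.mp hall
    obtain ⟨n, hn1, hn2, hn3⟩ := Cyc_n c z hz hc
    obtain ⟨p, hp1, hp2, hp3⟩ := Cyc_p c z hz hc
    exact ⟨n, p, hn1, hp1, hn2, hp2, hn3, hp3⟩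

end Pool.Agent.H44.EP
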