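import Mathlib

/-!
# MP_f5d6d4_co, project EP (sharp lower bound `(4 - 2√2) n` for noncrossing alternating paths): definitions

A cyclic word is a function `v : ZMod T → ℤ` with values `±1`; the letter `x` lies between the lattice points
`x - 1` and `x`.  `g` is a height function: `c x = g x - g (x-1)`.  A letter with `c x = 0` has been removed.
`n x` = value of the first surviving letter after the lattice point `x`, `p x` = value of the last surviving
letter before the lattice point `x` (i.e. among the letters `x, x-1, ...`).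
-/

namespace Pool.Agent.H44.EP

open Finset

/-- `n`, `p` = next and previous surviving letter of the word `c`. -/
structure NPf {T : ℕ} [NeZero T] (c n p : ZMod T → ℤ) : Prop where
  n1 : ∀ x, n x = 1 ∨ n x = -1
  p1 : ∀ x, p x = 1 ∨ p x = -1
  n0 : ∀ x, c x = 0 → n x = n (x - 1)
  p0 : ∀ x, c x = 0 → p x = p (x - 1)
  nc : ∀ x, c x ≠ 0 → n (x - 1) = c x
  pc : ∀ x, c x ≠ 0 → p x = c x

/-- A stage of the peeling process of the word `v` with height function `g0`: current height `g`, current word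
`c`, next/previous functions `n`, `p`, kernel `N`, parity `κ`. -/
structure Stage {T : ℕ} [NeZero T] (v g0 g c n p : ZMod T → ℤ) (N : ZMod T → ZMod T → ℤ) (κ : ℤ) :
    Prop where
  c01 : ∀ x, c x = 0 ∨ c x = 1 ∨ c x = -1
  cg : ∀ x, c x = g x - g (x - 1)
  vg : ∀ x, v x = g0 x - g0 (x - 1)
  inv : ∀ x, c x ≠ 0 → c x = v x ∧ g x = g0 x ∧ g (x - 1) = g0 (x - 1)
  np : NPf c n p
  par : ∀ x, n x ≠ p x → 2 ∣ g x - κ
  symm : ∀ x y, N x y = N y x
  cap : ∀ x y, 0 ≤ 2 * (1 - c x ^ 2) + N (x - 1) y - N x y ∧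
    2 * (1 - c x ^ 2) + N (x - 1) y - N x y ≤ 4
  cap0 : ∀ x y, c x ≠ 0 → N (x - 1) y = N x y
  quad : ∑ x, ∑ y, v x * v y * (N (x - 1) (y - 1) - N x y) = 2 * ((T : ℤ) ^ 2 - (∑ x, c x ^ 2) ^ 2)
  var : ∑ x, (1 - n (x - 1) * n x) ≤ ∑ x, (1 - v x * v (x + 1))

theorem sum_shift {T : ℕ} [NeZero T] (f : ZMod T → ℤ) : ∑ j, f (j - 1) = ∑ j, f j :=
  Fintype.sum_equiv (Equiv.subRight 1) _ _ (fun _ => rfl)

theorem sum_shift' {T : ℕ} [NeZero T] (f : ZMod T → ℤ) : ∑ j, f (j + 1) = ∑ j, f j :=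
  Fintype.sum_equiv (Equiv.addRight 1) _ _ (fun _ => rfl)

end Pool.Agent.H44.EP
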