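import Pool.Agent.H44.EP.Defs
import Pool.Agent.H95.NP.Defs

/-!
# Row EP/Dual: weak duality (crossing inequality)

Notation for a cell `(i,j)`: `d1 = W (i-1) j + U i j` (`= U i (j-1) + W i j` by `cons`), `e1 = W i j - U i j`
(`= W (i-1) j - U i (j-1)`), `d2 = 2 z i + 2 z' j + M i (j-1) - M (i-1) j`,
`e2 = 2 z i - 2 z' j + M i j - M (i-1) (j-1)`.

(1) `∑∑ (d1 d2 + e1 e2) = 4 (A ∑ z' + m ∑ z)`:
 * `z`-part: `2 z i (d1 + e1) = 2 z i (W (i-1) j + W i j)`, sum over `j` gives `4 m z i` (`sumW`);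
 * `z'`-part: `2 z' j (d1 - e1) = 2 z' j (U i (j-1) + U i j)` (by `cons`), sum over `i` gives `4 A z' j` (`sumU`);
 * `M`-part: `∑∑ (d1 M i (j-1) - d1 M (i-1) j + e1 M i j - e1 M (i-1) (j-1)) = 0`: shift the summation indices
   (`sum_shift`, `sum_shift'`) so that every term is `(...) * M i j`; the coefficient
   `d1(i,j+1) - d1(i+1,j) + e1(i,j) - e1(i+1,j+1)` vanishes by `cons` at `(i,j+1)` and at `(i+1,j+1)`.
(2) per cell: if `σ i = θ j` then `d1 d2 + e1 e2 ≤ 8 d1`; if `σ i ≠ θ j` then `d1 d2 + e1 e2 ≤ 2 d2`.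
   Put `P1 = 2 z i + M i j - M (i-1) j`, `P0 = 2 z i + M i (j-1) - M (i-1) (j-1)`, `Q1 = 2 z' j + M i (j-1) - M i j`,
   `Q0 = 2 z' j + M (i-1) (j-1) - M (i-1) j`, all in `[0,4]`; `d2 = P1 + Q1 = P0 + Q0`, `e2 = P1 - Q0 = P0 - Q1`,
   `d2 + e2 = P0 + P1`, `d2 - e2 = Q0 + Q1`.  The four numbers `W (i-1) j, U i j, U i (j-1), W i j` are `0/1` with
   `cons`: six cases (`mat` excludes `d1 = 0, 2` if `σ i ≠ θ j`).
(3) `∑∑ d1 = m X + A T`; the number of cells with `σ i ≠ θ j` is `X T / 2` (`balσ`, `balθ`), there `d1 = 1` (`mat`).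
   So `∑_{σ = θ} 8 d1 = 8 (m X + A T) - 4 X T`.
-/

namespace Pool.Agent.H44.EP

open Finset Pool.Agent.H95.NP

private theorem Dual_shiftj {X T : ℕ} [NeZero X] [NeZero T] (f M : ZMod X → ZMod T → ℤ) :
    ∑ i, ∑ j, f i j * M i (j - 1) = ∑ i, ∑ j, f i (j + 1) * M i j := by
  refine Finset.sum_congr rfl fun i _ => ?_
  rw [← sum_shift (fun j => f i (j + 1) * M i j)]
  refine Finset.sum_congr rfl fun j _ => ?_
  simp only [sub_add_cancel]

private theorem Dual_shifti {X T : ℕ} [NeZero X] [NeZero T] (f M : ZMod X → ZMod T → ℤ) :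
    ∑ i, ∑ j, f i j * M (i - 1) j = ∑ i, ∑ j, f (i + 1) j * M i j := by
  rw [← sum_shift (fun i => ∑ j, f (i + 1) j * M i j)]
  refine Finset.sum_congr rfl fun i _ => Finset.sum_congr rfl fun j _ => ?_
  simp only [sub_add_cancel]

private theorem Dual_shiftij {X T : ℕ} [NeZero X] [NeZero T] (f M : ZMod X → ZMod T → ℤ) :
    ∑ i, ∑ j, f i j * M (i - 1) (j - 1) = ∑ i, ∑ j, f (i + 1) (j + 1) * M i j := by
  rw [← sum_shift (fun i => ∑ j, f (i + 1) (j + 1) * M i j)]
  refine Finset.sum_congr rfl fun i _ => ?_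
  rw [← sum_shift (fun j => f (i - 1 + 1) (j + 1) * M (i - 1) j)]
  refine Finset.sum_congr rfl fun j _ => ?_
  simp only [sub_add_cancel]

private theorem Dual_bool {T : ℕ} [NeZero T] (θ : ZMod T → Bool)
    (hθ : 2 * (univ.filter fun j => θ j = true).card = T) (b : Bool) :
    2 * ∑ j, (if b ≠ θ j then (1 : ℤ) else 0) = T := by
  have h1 : ∑ j, (if θ j = true then (1 : ℤ) else 0) = ((univ.filter fun j => θ j = true).card : ℤ) := by
    rw [Finset.card_filter]
    push_cast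
    rfl
  have h2 : (2 : ℤ) * ∑ j, (if θ j = true then (1 : ℤ) else 0) = T := by
    rw [h1]
    exact_mod_cast hθ
  cases b with
  | false =>
    rw [← h2]
    congr 1
    refine Finset.sum_congr rfl fun j _ => ?_
    cases θ j <;> simp
  | true =>
    have h3 : ∑ j, (if true ≠ θ j then (1 : ℤ) else 0)
        = ∑ j, ((1 : ℤ) - (if θ j = true then (1 : ℤ) else 0)) := by
      refine Finset.sum_congr rfl fun j _ => ?_
      cases θ j <;> simp
    rw [h3, Finset.sum_sub_distrib]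
    have h4 : ∑ _j : ZMod T, (1 : ℤ) = T := by simp [ZMod.card]
    rw [h4]
    linarith

theorem dual_ident {X T : ℕ} [NeZero X] [NeZero T] {σ : ZMod X → Bool} {θ : ZMod T → Bool}
    {m A : ℤ} {U W : ZMod X → ZMod T → ℤ} (h : TF X T σ θ m A U W)
    (z : ZMod X → ℤ) (z' : ZMod T → ℤ) (M : ZMod X → ZMod T → ℤ) :
    ∑ i, ∑ j, ((W (i - 1) j + U i j) * (2 * z i + 2 * z' j + M i (j - 1) - M (i - 1) j)
      + (W i j - U i j) * (2 * z i - 2 * z' j + M i j - M (i - 1) (j - 1)))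
      = 4 * (A * ∑ j, z' j + m * ∑ i, z i) := by
  have hA : ∀ i j, (W (i - 1) j + U i j) * (2 * z i + 2 * z' j + M i (j - 1) - M (i - 1) j)
      + (W i j - U i j) * (2 * z i - 2 * z' j + M i j - M (i - 1) (j - 1))
      = 2 * z i * (W (i - 1) j + W i j) + 2 * z' j * (U i (j - 1) + U i j)
        + ((W (i - 1) j + U i j) * M i (j - 1) - (W (i - 1) j + U i j) * M (i - 1) j
          + (W i j - U i j) * M i j - (W i j - U i j) * M (i - 1) (j - 1)) := by
    intro i j
    linear_combination (2 * z' j) * h.cons i j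
  have e1 : ∑ i, ∑ j, 2 * z i * (W (i - 1) j + W i j) = 4 * (m * ∑ i, z i) := by
    have : ∀ i, ∑ j, 2 * z i * (W (i - 1) j + W i j) = 4 * m * z i := by
      intro i
      rw [← Finset.mul_sum, Finset.sum_add_distrib, h.sumW, h.sumW]
      ring
    simp only [this]
    rw [← Finset.mul_sum]
    ring
  have e2 : ∑ i, ∑ j, 2 * z' j * (U i (j - 1) + U i j) = 4 * (A * ∑ j, z' j) := by
    rw [Finset.sum_comm]
    have : ∀ j, ∑ i, 2 * z' j * (U i (j - 1) + U i j) = 4 * A * z' j := by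
      intro j
      rw [← Finset.mul_sum, Finset.sum_add_distrib, h.sumU, h.sumU]
      ring
    simp only [this]
    rw [← Finset.mul_sum]
    ring
  have e3 : ∑ i, ∑ j, ((W (i - 1) j + U i j) * M i (j - 1) - (W (i - 1) j + U i j) * M (i - 1) j
          + (W i j - U i j) * M i j - (W i j - U i j) * M (i - 1) (j - 1)) = 0 := by
    have s1 := Dual_shiftj (fun i j => W (i - 1) j + U i j) M
    have s2 := Dual_shifti (fun i j => W (i - 1) j + U i j) M
    have s3 := Dual_shiftij (fun i j => W i j - U i j) M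
    simp only [Finset.sum_sub_distrib, Finset.sum_add_distrib]
    rw [s1, s2, s3]
    rw [← Finset.sum_sub_distrib, ← Finset.sum_add_distrib, ← Finset.sum_sub_distrib]
    refine Finset.sum_eq_zero fun i _ => ?_
    rw [← Finset.sum_sub_distrib, ← Finset.sum_add_distrib, ← Finset.sum_sub_distrib]
    refine Finset.sum_eq_zero fun j _ => ?_
    have c1 := h.cons i (j + 1)
    have c2 := h.cons (i + 1) (j + 1)
    simp only [add_sub_cancel_right] at c1 c2 ⊢
    linear_combination (M i j) * c1 + (M i j) * c2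
  calc _ = ∑ i, ∑ j, (2 * z i * (W (i - 1) j + W i j) + 2 * z' j * (U i (j - 1) + U i j)
        + ((W (i - 1) j + U i j) * M i (j - 1) - (W (i - 1) j + U i j) * M (i - 1) j
          + (W i j - U i j) * M i j - (W i j - U i j) * M (i - 1) (j - 1))) :=
        Finset.sum_congr rfl fun i _ => Finset.sum_congr rfl fun j _ => hA i j
    _ = ∑ i, ∑ j, 2 * z i * (W (i - 1) j + W i j) + ∑ i, ∑ j, 2 * z' j * (U i (j - 1) + U i j)
        + ∑ i, ∑ j, ((W (i - 1) j + U i j) * M i (j - 1) - (W (i - 1) j + U i j) * M (i - 1) j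
          + (W i j - U i j) * M i j - (W i j - U i j) * M (i - 1) (j - 1)) := by
        rw [← Finset.sum_add_distrib, ← Finset.sum_add_distrib]
        refine Finset.sum_congr rfl fun i _ => ?_
        rw [← Finset.sum_add_distrib, ← Finset.sum_add_distrib]
    _ = _ := by rw [e1, e2, e3]; ring

theorem dual_cell {X T : ℕ} [NeZero X] [NeZero T] {σ : ZMod X → Bool} {θ : ZMod T → Bool}
    {m A : ℤ} {U W : ZMod X → ZMod T → ℤ} (h : TF X T σ θ m A U W)
    (z : ZMod X → ℤ) (z' : ZMod T → ℤ) (M : ZMod X → ZMod T → ℤ)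
    (hp : ∀ i j, 0 ≤ 2 * z i + M i j - M (i - 1) j ∧ 2 * z i + M i j - M (i - 1) j ≤ 4)
    (hq : ∀ i j, 0 ≤ 2 * z' j + M i (j - 1) - M i j ∧ 2 * z' j + M i (j - 1) - M i j ≤ 4)
    (i : ZMod X) (j : ZMod T) :
    (W (i - 1) j + U i j) * (2 * z i + 2 * z' j + M i (j - 1) - M (i - 1) j)
      + (W i j - U i j) * (2 * z i - 2 * z' j + M i j - M (i - 1) (j - 1))
      ≤ (if σ i ≠ θ j then 0 else 8 * (W (i - 1) j + U i j))
        + 2 * (if σ i ≠ θ j then 2 * z i + 2 * z' j + M i (j - 1) - M (i - 1) j else 0) := by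
  have P1 := hp i j
  have P0 := hp i (j - 1)
  have Q1 := hq i j
  have Q0 := hq (i - 1) j
  have hc := h.cons i j
  split_ifs with hne
  · have hm := h.mat i j hne
    rw [hm]
    rcases h.U01 i j with b | b <;> rcases h.W01 i j with d | d <;> rw [b, d] <;> linarith [P1.1, P0.1, Q1.1, Q0.1]
  · rcases h.W01 (i - 1) j with a | a <;> rcases h.U01 i j with b | b <;>
      rcases h.U01 i (j - 1) with c | c <;> rcases h.W01 i j with d | d <;>
      rw [a, b, c, d] at hc <;> first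
        | (exfalso; omega)
        | (rw [a, b, d]; linarith [P1.2, P0.2, Q1.2, Q0.2])

theorem dual_count {X T : ℕ} [NeZero X] [NeZero T] {σ : ZMod X → Bool} {θ : ZMod T → Bool}
    {m A : ℤ} {U W : ZMod X → ZMod T → ℤ} (h : TF X T σ θ m A U W) :
    ∑ i, ∑ j, (if σ i ≠ θ j then 0 else 8 * (W (i - 1) j + U i j))
      = 8 * (m * X + A * T) - 4 * (X * T) := by
  have hrow : ∀ i, 2 * ∑ j, (if σ i ≠ θ j then (1 : ℤ) else 0) = T := fun i =>
    Dual_bool θ h.balθ (σ i)
  have hcell : ∀ i j, (if σ i ≠ θ j then 0 else 8 * (W (i - 1) j + U i j))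
      = 8 * W (i - 1) j + 8 * U i j - 4 * (2 * (if σ i ≠ θ j then (1 : ℤ) else 0)) := by
    intro i j
    split_ifs with hne
    · have hm := h.mat i j hne
      linarith
    · ring
  have hi : ∀ i, ∑ j, (if σ i ≠ θ j then 0 else 8 * (W (i - 1) j + U i j))
      = 8 * m + 8 * ∑ j, U i j - 4 * T := by
    intro i
    rw [Finset.sum_congr rfl fun j _ => hcell i j, Finset.sum_sub_distrib, Finset.sum_add_distrib,
      ← Finset.mul_sum, ← Finset.mul_sum, ← Finset.mul_sum, ← Finset.mul_sum, h.sumW, hrow i]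
  rw [Finset.sum_congr rfl fun i _ => hi i, Finset.sum_sub_distrib, Finset.sum_add_distrib,
    ← Finset.mul_sum, ← Finset.mul_sum, Finset.sum_comm]
  simp only [h.sumU, Finset.sum_const, Finset.card_univ, ZMod.card, nsmul_eq_mul]
  ring

theorem dual {X T : ℕ} [NeZero X] [NeZero T] {σ : ZMod X → Bool} {θ : ZMod T → Bool}
    {m A : ℤ} {U W : ZMod X → ZMod T → ℤ} (h : TF X T σ θ m A U W)
    (z : ZMod X → ℤ) (z' : ZMod T → ℤ) (M : ZMod X → ZMod T → ℤ)
    (hp : ∀ i j, 0 ≤ 2 * z i + M i j - M (i - 1) j ∧ 2 * z i + M i j - M (i - 1) j ≤ 4)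
    (hq : ∀ i j, 0 ≤ 2 * z' j + M i (j - 1) - M i j ∧ 2 * z' j + M i (j - 1) - M i j ≤ 4) :
    4 * (A * ∑ j, z' j + m * ∑ i, z i) ≤ 8 * (m * X + A * T) - 4 * (X * T)
      + 2 * ∑ i, ∑ j, (if σ i ≠ θ j then 2 * z i + 2 * z' j + M i (j - 1) - M (i - 1) j else 0) := by
  rw [← dual_ident h z z' M, ← dual_count h, Finset.mul_sum, ← Finset.sum_add_distrib]
  refine Finset.sum_le_sum fun i _ => ?_
  rw [Finset.mul_sum, ← Finset.sum_add_distrib]
  exact Finset.sum_le_sum fun j _ => dual_cell h z z' M hp hq i j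

end Pool.Agent.H44.EP
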