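import Pool.Agent.H44.EP.StA

/-!
# Row EP/StC: the sums of one step

`S = ∑ c²`, `S' = ∑ c'²` (`c' = cn g n p`), `h = g0 - g`.
 (1) `∑ v x * n (x-1) = S`: `v x - c x = h x - h (x-1)`; `∑ c x * n (x-1) = ∑ c x ^2` termwise (`nc`);
     `∑ (h x - h (x-1)) * n (x-1) = ∑ h x * n (x-1) - ∑ h x * n x` (shift) `= 0` termwise: if `c x = 0` then
     `n x = n (x-1)`, otherwise `h x = 0` by `inv`.
 (2) `∑ v x * p x = S`: same with `∑ (h x - h (x-1)) * p x = ∑ h x * p x - ∑ h x * p (x+1) = 0`: if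
     `c (x+1) = 0` then `p (x+1) = p x`, otherwise `h x = 0` by `inv (x+1)`.
 (3) `∑ v x * n x = ∑ c x * n x` and `∑ v x * p (x-1) = ∑ c x * p (x-1)`: `∑ (h x - h (x-1)) * n x =
     ∑ h x * (n x - n (x+1)) = 0` (if `c (x+1) ≠ 0` then `h x = 0`), `∑ (h x - h(x-1)) * p (x-1) = ∑ h x * (p (x-1) - p x) = 0`.
 (4) `∑ c x * n x = ∑ c x * p (x-1)`: `0 = ∑ (p x * n x - p (x-1) * n (x-1))` (shift) and termwise
     `p x * n x - p (x-1) * n (x-1) = c x * n x - c x * p (x-1)`.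
 (5) `2 S' = ∑ c x * n x + ∑ c x * p (x-1)` termwise by `step_cases` (`2 c'^2 = c x * n x + c x * p (x-1)`).
     So all four sums in (3) are `S'`.
 (6) `S - S' = ∑ (1 - n (x-1) * n x)`: `c x ^2 - c x * n x = 1 - n (x-1) * n x` termwise.
-/

namespace Pool.Agent.H44.EP

open Finset

variable {T : ℕ} [NeZero T] {v g0 g c n p : ZMod T → ℤ} {N : ZMod T → ZMod T → ℤ} {κ : ℤ}

theorem StC_parts (h : Stage v g0 g c n p N κ) (f : ZMod T → ℤ) :
    ∑ x, v x * f x = ∑ x, c x * f x + ∑ x, (g0 x - g x) * (f x - f (x + 1)) := by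
  have h1 := sum_shift (fun x => (g0 x - g x) * f (x + 1))
  simp only [sub_add_cancel] at h1
  have h2 : ∑ x, v x * f x = ∑ x, (c x * f x + ((g0 x - g x) * f x -
      (g0 (x - 1) - g (x - 1)) * f x)) := by
    refine sum_congr rfl fun x _ => ?_
    rw [h.vg x, h.cg x]
    ring
  have h3 : ∑ x, (g0 x - g x) * (f x - f (x + 1)) =
      ∑ x, (g0 x - g x) * f x - ∑ x, (g0 x - g x) * f (x + 1) := by
    rw [← sum_sub_distrib]
    refine sum_congr rfl fun x _ => ?_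
    ring
  rw [h2, h3, ← h1, sum_add_distrib, sum_sub_distrib]

theorem StC_h0 (h : Stage v g0 g c n p N κ) {x : ZMod T} (hx : c x ≠ 0) : g0 x - g x = 0 := by
  rw [(h.inv x hx).2.1, sub_self]

theorem StC_h1 (h : Stage v g0 g c n p N κ) {x : ZMod T} (hx : c (x + 1) ≠ 0) :
    g0 x - g x = 0 := by
  have h1 := (h.inv (x + 1) hx).2.2
  rw [add_sub_cancel_right] at h1
  rw [h1, sub_self]

theorem sum_vn1 (h : Stage v g0 g c n p N κ) : ∑ x, v x * n (x - 1) = ∑ x, c x ^ 2 := by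
  rw [StC_parts h (fun x => n (x - 1))]
  have h1 : ∑ x, (g0 x - g x) * (n (x - 1) - n (x + 1 - 1)) = 0 := by
    refine sum_eq_zero fun x _ => ?_
    by_cases hx : c x = 0
    · rw [add_sub_cancel_right, h.np.n0 x hx, sub_self, mul_zero]
    · rw [StC_h0 h hx, zero_mul]
  rw [h1, add_zero]
  refine sum_congr rfl fun x _ => ?_
  by_cases hx : c x = 0
  · rw [hx]
    ring
  · rw [h.np.nc x hx]
    ring

theorem sum_vp (h : Stage v g0 g c n p N κ) : ∑ x, v x * p x = ∑ x, c x ^ 2 := by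
  rw [StC_parts h p]
  have h1 : ∑ x, (g0 x - g x) * (p x - p (x + 1)) = 0 := by
    refine sum_eq_zero fun x _ => ?_
    by_cases hx : c (x + 1) = 0
    · rw [h.np.p0 (x + 1) hx, add_sub_cancel_right, sub_self, mul_zero]
    · rw [StC_h1 h hx, zero_mul]
  rw [h1, add_zero]
  refine sum_congr rfl fun x _ => ?_
  by_cases hx : c x = 0
  · rw [hx]
    ring
  · rw [h.np.pc x hx]
    ring

theorem StC_vn0 (h : Stage v g0 g c n p N κ) : ∑ x, v x * n x = ∑ x, c x * n x := by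
  rw [StC_parts h n]
  have h1 : ∑ x, (g0 x - g x) * (n x - n (x + 1)) = 0 := by
    refine sum_eq_zero fun x _ => ?_
    by_cases hx : c (x + 1) = 0
    · rw [h.np.n0 (x + 1) hx, add_sub_cancel_right, sub_self, mul_zero]
    · rw [StC_h1 h hx, zero_mul]
  rw [h1, add_zero]

theorem StC_vp10 (h : Stage v g0 g c n p N κ) :
    ∑ x, v x * p (x - 1) = ∑ x, c x * p (x - 1) := by
  rw [StC_parts h (fun x => p (x - 1))]
  have h1 : ∑ x, (g0 x - g x) * (p (x - 1) - p (x + 1 - 1)) = 0 := by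
    refine sum_eq_zero fun x _ => ?_
    by_cases hx : c x = 0
    · rw [add_sub_cancel_right, h.np.p0 x hx, sub_self, mul_zero]
    · rw [StC_h0 h hx, zero_mul]
  rw [h1, add_zero]

theorem StC_np (h : Stage v g0 g c n p N κ) : ∑ x, c x * n x = ∑ x, c x * p (x - 1) := by
  have h1 := sum_shift (fun x => p x * n x)
  have h2 : ∑ x, (p x * n x - p (x - 1) * n (x - 1)) = ∑ x, (c x * n x - c x * p (x - 1)) := by
    refine sum_congr rfl fun x _ => ?_
    by_cases hx : c x = 0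
    · rw [h.np.p0 x hx, h.np.n0 x hx, hx]
      ring
    · rw [h.np.pc x hx, h.np.nc x hx]
      ring
  rw [sum_sub_distrib, sum_sub_distrib, h1, sub_self] at h2
  linarith

theorem StC_two (h : Stage v g0 g c n p N κ) :
    2 * ∑ x, cn g n p x ^ 2 = ∑ x, c x * n x + ∑ x, c x * p (x - 1) := by
  rw [mul_sum, ← sum_add_distrib]
  refine sum_congr rfl fun x _ => ?_
  rcases step_cases h x with ⟨h1, h2, h3, h4⟩ | ⟨h1, h1', h2, h3, h4, h5, h6⟩ |
    ⟨h1, h1', h2, h3, h4, h5, h6⟩ | ⟨h1, h1', h2, h3, h4, h5, h6⟩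
  · rw [h1, h2]
    ring
  · rw [h2, h3, h6]
    ring
  · rw [h2, h3, h6]
    ring
  · rw [h2, h3, h6]
    ring

theorem sum_vn (h : Stage v g0 g c n p N κ) : ∑ x, v x * n x = ∑ x, cn g n p x ^ 2 := by
  have h1 := StC_two h
  rw [← StC_np h] at h1
  rw [StC_vn0 h]
  linarith

theorem sum_vp1 (h : Stage v g0 g c n p N κ) : ∑ x, v x * p (x - 1) = ∑ x, cn g n p x ^ 2 := by
  have h1 := StC_two h
  rw [StC_np h] at h1
  rw [StC_vp10 h]
  linarith

theorem sum_drop (h : Stage v g0 g c n p N κ) :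
    ∑ x, cn g n p x ^ 2 = ∑ x, c x ^ 2 - ∑ x, (1 - n (x - 1) * n x) := by
  rw [← sum_vn h, StC_vn0 h, ← sum_sub_distrib]
  refine sum_congr rfl fun x _ => ?_
  by_cases hx : c x = 0
  · rw [hx, h.np.n0 x hx]
    rcases h.np.n1 (x - 1) with h1 | h1 <;> rw [h1] <;> norm_num
  · rw [h.np.nc x hx]
    rcases h.c01 x with h1 | h1 | h1
    · exact absurd h1 hx
    · rw [h1]
      ring
    · rw [h1]
      ring

/-- `∑∑ v v (N'(x-1,y-1) - N'(x,y))` for `N' = N + n n - p p`. -/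
theorem step_quad (h : Stage v g0 g c n p N κ) :
    ∑ x, ∑ y, v x * v y * ((N (x - 1) (y - 1) + n (x - 1) * n (y - 1) - p (x - 1) * p (y - 1))
      - (N x y + n x * n y - p x * p y)) = 2 * ((T : ℤ) ^ 2 - (∑ x, cn g n p x ^ 2) ^ 2) := by
  have key : ∀ f : ZMod T → ℤ, ∑ x, ∑ y, (v x * f x) * (v y * f y) = (∑ x, v x * f x) ^ 2 := by
    intro f
    rw [sq, sum_mul_sum]
  have h1 : ∑ x, ∑ y, v x * v y * ((N (x - 1) (y - 1) + n (x - 1) * n (y - 1) -
      p (x - 1) * p (y - 1)) - (N x y + n x * n y - p x * p y)) =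
      ∑ x, ∑ y, v x * v y * (N (x - 1) (y - 1) - N x y) +
      ∑ x, ∑ y, (v x * n (x - 1)) * (v y * n (y - 1)) -
      ∑ x, ∑ y, (v x * p (x - 1)) * (v y * p (y - 1)) -
      ∑ x, ∑ y, (v x * n x) * (v y * n y) + ∑ x, ∑ y, (v x * p x) * (v y * p y) := by
    rw [← sum_add_distrib, ← sum_sub_distrib, ← sum_sub_distrib, ← sum_add_distrib]
    refine sum_congr rfl fun x _ => ?_
    rw [← sum_add_distrib, ← sum_sub_distrib, ← sum_sub_distrib, ← sum_add_distrib]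
    refine sum_congr rfl fun y _ => ?_
    ring
  rw [h1, h.quad, key (fun x => n (x - 1)), key (fun x => p (x - 1)), key n, key p, sum_vn1 h,
    sum_vp1 h, sum_vn h, sum_vp h]
  ring

end Pool.Agent.H44.EP
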