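import Pool.Agent.H44.EP.StB
import Pool.Agent.H44.EP.StC

/-!
# Row EP/Iter: iteration

## stage_step
`g' = gn`, `c' = cn`, `N' x y = N x y + n x * n y - p x * p y`.  `n'`, `p'`: if `c'` is identically zero take the
constant `1` (then `par`, `var` are trivial: `∑ (1 - 1*1) = 0 ≤ ∑ (1 - v x * v (x+1))`, since `v x = ± 1`, `hv`),
otherwise `exists_NPf` and `step_par`, `step_var`, `h.var`.
## var_pos
If `∑ (1 - n (x-1) n x) = 0` (all terms are `≥ 0`) then `n x = n (x-1)` for all `x`, so `n` is constant `= e` (use `cyc_left`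
with `Z x := (x = 0)`), so `c x = 0` or `c x = e` for all `x`, `e * ∑ c x = ∑ c x ^2 > 0`, but `∑ c x = ∑ g x - ∑ g (x-1) = 0`.
## iter
Strong induction on `(∑ c²).toNat`: if `∑ c² ≤ τ + D` done; otherwise `∑ c² > τ + D ≥ 0` so `c` is not identically zero;
`stage_step` gives `S' = S - V`, `0 < V ≤ D` (`h.var`), so `τ ≤ S' < S`.
-/

namespace Pool.Agent.H44.EP

open Finset

variable {T : ℕ} [NeZero T] {v g0 g c n p : ZMod T → ℤ} {N : ZMod T → ZMod T → ℤ} {κ : ℤ}

theorem Iter_sgn {a b : ℤ} (ha : a = 1 ∨ a = -1) (hb : b = 1 ∨ b = -1) : 0 ≤ 1 - a * b := by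
  rcases ha with h | h <;> rcases hb with h' | h' <;> rw [h, h'] <;> norm_num

theorem Iter_D {v : ZMod T → ℤ} (hv : ∀ x, v x = 1 ∨ v x = -1) :
    0 ≤ ∑ x, (1 - v x * v (x + 1)) :=
  Finset.sum_nonneg fun x _ => Iter_sgn (hv x) (hv (x + 1))

theorem stage_step (hv : ∀ x, v x = 1 ∨ v x = -1) (h : Stage v g0 g c n p N κ) :
    ∃ g' c' n' p' : ZMod T → ℤ, ∃ N' : ZMod T → ZMod T → ℤ, Stage v g0 g' c' n' p' N' (κ + 1) ∧
      ∑ x, c' x ^ 2 = ∑ x, c x ^ 2 - ∑ x, (1 - n (x - 1) * n x) := by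
  have hnp : ∃ n' p' : ZMod T → ℤ, NPf (cn g n p) n' p' ∧
      (∀ x, n' x ≠ p' x → 2 ∣ gn g n p x - (κ + 1)) ∧
      ∑ x, (1 - n' (x - 1) * n' x) ≤ ∑ x, (1 - v x * v (x + 1)) := by
    by_cases hne : ∃ x, cn g n p x ≠ 0
    · obtain ⟨n', p', h'⟩ := exists_NPf (cn g n p) (step_c01 h)
      exact ⟨n', p', h', fun x hx => step_par h h' hne x hx, (step_var h h').trans h.var⟩
    · push Not at hne
      refine ⟨fun _ => 1, fun _ => 1, ⟨fun _ => Or.inl rfl, fun _ => Or.inl rfl, fun _ _ => rfl,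
        fun _ _ => rfl, fun x hx => absurd (hne x) hx, fun x hx => absurd (hne x) hx⟩,
        fun x hx => absurd rfl hx, ?_⟩
      have h0 : ∑ x : ZMod T, ((1 : ℤ) - 1 * 1) = 0 := by simp
      rw [h0]
      exact Iter_D hv
  obtain ⟨n', p', h', hpar, hvar⟩ := hnp
  refine ⟨gn g n p, cn g n p, n', p', fun x y => N x y + n x * n y - p x * p y, ?_, sum_drop h⟩
  exact
    { c01 := step_c01 h
      cg := fun x => rfl
      vg := h.vg
      inv := fun x hx => step_inv h x hx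
      np := h'
      par := hpar
      symm := fun x y => by
        show N x y + n x * n y - p x * p y = N y x + n y * n x - p y * p x
        rw [h.symm x y]
        ring
      cap := fun x y => step_cap h x y
      cap0 := fun x y hx => step_cap0 h x y hx
      quad := step_quad h
      var := hvar }

theorem var_pos (h : Stage v g0 g c n p N κ) (hne : ∃ x, c x ≠ 0) :
    0 < ∑ x, (1 - n (x - 1) * n x) := by
  have hterm : ∀ x, 0 ≤ 1 - n (x - 1) * n x := fun x => Iter_sgn (h.np.n1 (x - 1)) (h.np.n1 x)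
  by_contra hcon
  have h0 : ∑ x, (1 - n (x - 1) * n x) = 0 :=
    le_antisymm (not_lt.1 hcon) (Finset.sum_nonneg fun x _ => hterm x)
  have h1 : ∀ x, 1 - n (x - 1) * n x = 0 := fun x =>
    (Finset.sum_eq_zero_iff_of_nonneg fun x _ => hterm x).1 h0 x (Finset.mem_univ x)
  have h2 : ∀ x, n x = n (x - 1) := by
    intro x
    have h3 := h1 x
    rcases h.np.n1 (x - 1) with a | a <;> rcases h.np.n1 x with b | b
    · rw [a, b]
    · rw [a, b] at h3
      norm_num at h3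
    · rw [a, b] at h3
      norm_num at h3
    · rw [a, b]
  have h3 : ∀ x, n x = n 0 := by
    refine cyc_left (fun x => n x = n 0) (fun x => x = 0) ⟨0, rfl⟩ (fun x hx => ?_) fun x _ hx => ?_
    · show n x = n 0
      rw [hx]
    · show n x = n 0
      rw [h2 x]
      exact hx
  have h4 : ∀ x, c x = n 0 * c x ^ 2 := by
    intro x
    by_cases hx : c x = 0
    · rw [hx]
      norm_num
    · have h5 := h.np.nc x hx
      rw [h3] at h5
      rw [← h5]
      rcases h.np.n1 0 with a | a <;> rw [a] <;> norm_num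
  have h5 : ∑ x, c x = 0 := by
    have : ∑ x, c x = ∑ x, g x - ∑ x, g (x - 1) := by
      rw [← Finset.sum_sub_distrib]
      exact Finset.sum_congr rfl fun x _ => h.cg x
    rw [this, sum_shift, sub_self]
  have h6 : n 0 * ∑ x, c x ^ 2 = 0 := by
    rw [Finset.mul_sum, ← h5]
    exact Finset.sum_congr rfl fun x _ => (h4 x).symm
  have h7 : n 0 ≠ 0 := by
    rcases h.np.n1 0 with a | a <;> rw [a] <;> norm_num
  have h8 : ∑ x, c x ^ 2 = 0 := (mul_eq_zero.1 h6).resolve_left h7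
  obtain ⟨x, hx⟩ := hne
  have h9 := (Finset.sum_eq_zero_iff_of_nonneg fun x _ => sq_nonneg (c x)).1 h8 x
    (Finset.mem_univ x)
  exact hx (pow_eq_zero_iff (two_ne_zero)|>.1 h9)

theorem Iter_main (hv : ∀ x, v x = 1 ∨ v x = -1) (τ : ℤ) (hτ : 0 ≤ τ) (k : ℕ) :
    ∀ (g c n p : ZMod T → ℤ) (N : ZMod T → ZMod T → ℤ) (κ : ℤ), Stage v g0 g c n p N κ →
      τ ≤ ∑ x, c x ^ 2 → (∑ x, c x ^ 2).toNat ≤ k →
    ∃ g' c' n' p' : ZMod T → ℤ, ∃ N' : ZMod T → ZMod T → ℤ, ∃ κ' : ℤ,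
      Stage v g0 g' c' n' p' N' κ' ∧ τ ≤ ∑ x, c' x ^ 2 ∧
        ∑ x, c' x ^ 2 ≤ τ + ∑ x, (1 - v x * v (x + 1)) := by
  induction k with
  | zero =>
    intro g c n p N κ h hS hk
    refine ⟨g, c, n, p, N, κ, h, hS, ?_⟩
    have := Iter_D hv
    omega
  | succ k ih =>
    intro g c n p N κ h hS hk
    by_cases hle : ∑ x, c x ^ 2 ≤ τ + ∑ x, (1 - v x * v (x + 1))
    · exact ⟨g, c, n, p, N, κ, h, hS, hle⟩
    · push Not at hle
      have hD := Iter_D hv
      have hne : ∃ x, c x ≠ 0 := by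
        by_contra hcon
        push Not at hcon
        have : ∑ x, c x ^ 2 = 0 := by
          refine Finset.sum_eq_zero fun x _ => ?_
          rw [hcon x]
          norm_num
        omega
      have hV := var_pos h hne
      have hV2 := h.var
      obtain ⟨g', c', n', p', N', h', hS'⟩ := stage_step hv h
      refine ih g' c' n' p' N' (κ + 1) h' (by omega) (by omega)

theorem iter (hv : ∀ x, v x = 1 ∨ v x = -1) (h : Stage v g0 g c n p N κ) (τ : ℤ) (hτ : 0 ≤ τ)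
    (hS : τ ≤ ∑ x, c x ^ 2) :
    ∃ g' c' n' p' : ZMod T → ℤ, ∃ N' : ZMod T → ZMod T → ℤ, ∃ κ' : ℤ,
      Stage v g0 g' c' n' p' N' κ' ∧ τ ≤ ∑ x, c' x ^ 2 ∧
        ∑ x, c' x ^ 2 ≤ τ + ∑ x, (1 - v x * v (x + 1)) := by
  exact Iter_main hv τ hτ _ g c n p N κ h hS le_rfl

end Pool.Agent.H44.EP
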