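import Pool.Agent.H44.EP.Cyc

/-!
# Row EP/StA: one peeling step, local facts

`g' x = g x + (n x - p x) / 2`, `c' x = g' x - g' (x - 1)`.

If `c x = 0`: `n x = n (x-1)`, `p x = p (x-1)`, `g x = g (x-1)` so `c' x = 0`.
If `c x = ε ≠ 0`: `p x = ε`, `n (x-1) = ε`, so `2 c' x = 2 ε + (n x - ε) - (ε - p (x-1)) = n x + p (x-1)`.
`n x = p (x-1) = -ε` is impossible: then `n x ≠ p x` and `n (x-1) ≠ p (x-1)`, so by `par` both `g x - κ` and
`g (x-1) - κ` are even, but `g x - g (x-1) = ε` is odd.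
-/

namespace Pool.Agent.H44.EP

open Finset

/-- the new height -/
def gn {T : ℕ} (g n p : ZMod T → ℤ) (x : ZMod T) : ℤ := g x + (n x - p x) / 2

/-- the new word -/
def cn {T : ℕ} (g n p : ZMod T → ℤ) (x : ZMod T) : ℤ := gn g n p x - gn g n p (x - 1)

variable {T : ℕ} [NeZero T] {v g0 g c n p : ZMod T → ℤ} {N : ZMod T → ZMod T → ℤ} {κ : ℤ}

/-- Complete case description of a letter. -/
theorem step_cases (h : Stage v g0 g c n p N κ) (x : ZMod T) :
    (c x = 0 ∧ cn g n p x = 0 ∧ n x = n (x - 1) ∧ p x = p (x - 1)) ∨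
    (c x ≠ 0 ∧ c x ^ 2 = 1 ∧ cn g n p x = c x ∧ n x = c x ∧ n (x - 1) = c x ∧ p x = c x ∧ p (x - 1) = c x) ∨
    (c x ≠ 0 ∧ c x ^ 2 = 1 ∧ cn g n p x = 0 ∧ n x = - c x ∧ n (x - 1) = c x ∧ p x = c x ∧ p (x - 1) = c x) ∨
    (c x ≠ 0 ∧ c x ^ 2 = 1 ∧ cn g n p x = 0 ∧ n x = c x ∧ n (x - 1) = c x ∧ p x = c x ∧ p (x - 1) = - c x) := by
  have hcg := h.cg x
  have hn1 := h.np.n1 x
  have hp1 := h.np.p1 (x - 1)
  by_cases hc : c x = 0
  · left
    have hn := h.np.n0 x hc
    have hp := h.np.p0 x hc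
    refine ⟨hc, ?_, hn, hp⟩
    rw [cn, gn, gn, ← hn, ← hp]
    omega
  · right
    have hp := h.np.pc x hc
    have hn := h.np.nc x hc
    have hparx := h.par x
    have hpary := h.par (x - 1)
    have hc1 : c x = 1 ∨ c x = -1 := (h.c01 x).resolve_left hc
    have hsq : c x ^ 2 = 1 := by
      rcases hc1 with h1 | h1 <;> rw [h1] <;> norm_num
    by_cases hnx : n x = c x
    · by_cases hpx : p (x - 1) = c x
      · left
        refine ⟨hc, hsq, ?_, hnx, hn, hp, hpx⟩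
        rw [cn, gn, gn, hnx, hp, hn, hpx]
        omega
      · right
        right
        have hpx' : p (x - 1) = - c x := by omega
        refine ⟨hc, hsq, ?_, hnx, hn, hp, hpx'⟩
        rw [cn, gn, gn, hnx, hp, hn, hpx']
        omega
    · have hnx' : n x = - c x := by omega
      by_cases hpx : p (x - 1) = c x
      · right
        left
        refine ⟨hc, hsq, ?_, hnx', hn, hp, hpx⟩
        rw [cn, gn, gn, hnx', hp, hn, hpx]
        omega
      · exfalso
        have hpx' : p (x - 1) = - c x := by omega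
        have h1 := hparx (by omega)
        have h2 := hpary (by omega)
        omega

/-- `cn` in `{0, 1, -1}`. -/
theorem step_c01 (h : Stage v g0 g c n p N κ) (x : ZMod T) :
    cn g n p x = 0 ∨ cn g n p x = 1 ∨ cn g n p x = -1 := by
  have hc01 := h.c01 x
  rcases step_cases h x with ⟨_, h2, _⟩ | ⟨h1, _, h2, _⟩ | ⟨_, _, h2, _⟩ | ⟨_, _, h2, _⟩
  · exact Or.inl h2
  · rw [h2]
    exact hc01
  · exact Or.inl h2
  · exact Or.inl h2

theorem step_inv (h : Stage v g0 g c n p N κ) (x : ZMod T) (hx : cn g n p x ≠ 0) :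
    cn g n p x = v x ∧ gn g n p x = g0 x ∧ gn g n p (x - 1) = g0 (x - 1) := by
  rcases step_cases h x with ⟨_, h2, _⟩ | ⟨h1, _, h2, h3, h4, h5, h6⟩ | ⟨_, _, h2, _⟩ | ⟨_, _, h2, _⟩
  · exact absurd h2 hx
  · obtain ⟨e1, e2, e3⟩ := h.inv x h1
    refine ⟨h2.trans e1, ?_, ?_⟩
    · rw [gn, h3, h5, sub_self, e2]
      simp
    · rw [gn, h4, h6, sub_self, e3]
      simp
  · exact absurd h2 hx
  · exact absurd h2 hx

theorem step_cap (h : Stage v g0 g c n p N κ) (x y : ZMod T) :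
    0 ≤ 2 * (1 - cn g n p x ^ 2) + (N (x - 1) y + n (x - 1) * n y - p (x - 1) * p y)
      - (N x y + n x * n y - p x * p y) ∧
    2 * (1 - cn g n p x ^ 2) + (N (x - 1) y + n (x - 1) * n y - p (x - 1) * p y)
      - (N x y + n x * n y - p x * p y) ≤ 4 := by
  have hcap := h.cap x y
  have hn1 := h.np.n1 y
  have hp1 := h.np.p1 y
  have hc01 := h.c01 x
  rcases step_cases h x with ⟨h1, h2, h3, h4⟩ | ⟨h1, h1', h2, h3, h4, h5, h6⟩ |
    ⟨h1, h1', h2, h3, h4, h5, h6⟩ | ⟨h1, h1', h2, h3, h4, h5, h6⟩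
  · rw [h1] at hcap
    rw [h2, h3, h4]
    constructor <;> linarith [hcap.1, hcap.2]
  · have h0 := h.cap0 x y h1
    rw [h2, h1', h3, h4, h5, h6, h0]
    constructor <;> linarith
  · have h0 := h.cap0 x y h1
    rw [h2, h3, h4, h5, h6, h0]
    rcases hc01 with h7 | h7 | h7
    · exact absurd h7 h1
    · rw [h7]
      rcases hn1 with h8 | h8 <;> rw [h8] <;> constructor <;> linarith
    · rw [h7]
      rcases hn1 with h8 | h8 <;> rw [h8] <;> constructor <;> linarith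
  · have h0 := h.cap0 x y h1
    rw [h2, h3, h4, h5, h6, h0]
    rcases hc01 with h7 | h7 | h7
    · exact absurd h7 h1
    · rw [h7]
      rcases hp1 with h8 | h8 <;> rw [h8] <;> constructor <;> linarith
    · rw [h7]
      rcases hp1 with h8 | h8 <;> rw [h8] <;> constructor <;> linarith

theorem step_cap0 (h : Stage v g0 g c n p N κ) (x y : ZMod T) (hx : cn g n p x ≠ 0) :
    N (x - 1) y + n (x - 1) * n y - p (x - 1) * p y = N x y + n x * n y - p x * p y := by
  rcases step_cases h x with ⟨_, h2, _⟩ | ⟨h1, _, h2, h3, h4, h5, h6⟩ | ⟨_, _, h2, _⟩ | ⟨_, _, h2, _⟩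
  · exact absurd h2 hx
  · rw [h3, h4, h5, h6, h.cap0 x y h1]
  · exact absurd h2 hx
  · exact absurd h2 hx

end Pool.Agent.H44.EP
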