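import Pool.Agent.H44.EP.StA

namespace Pool.Agent.H44.EP

open Finset

variable {T : ℕ} [NeZero T] {v g0 g c n p : ZMod T → ℤ} {N : ZMod T → ZMod T → ℤ} {κ : ℤ}

theorem StB_n (h : Stage v g0 g c n p N κ) {n' p' : ZMod T → ℤ} (h' : NPf (cn g n p) n' p')
    (hne : ∃ x, cn g n p x ≠ 0) : ∀ x, (n x = p x → 2 ∣ g x - κ → n' x = n x) := by
  apply cyc_right (fun x => (n x = p x → 2 ∣ g x - κ → n' x = n x)) (fun x => c (x + 1) ≠ 0)
  · obtain ⟨x, hx⟩ := hne
    refine ⟨x - 1, ?_⟩
    rw [sub_add_cancel]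
    rcases step_cases h x with h1 | h1 | h1 | h1
    · exact absurd h1.2.1 hx
    · exact h1.1
    · exact h1.1
    · exact h1.1
  · intro x hx h1 h2
    have hc := step_cases h (x + 1)
    rw [add_sub_cancel_right] at hc
    have hcg := h.cg (x + 1)
    rw [add_sub_cancel_right] at hcg
    have hc01 := h.c01 (x + 1)
    have hnp := h.par (x + 1)
    rcases hc with hc | hc | hc | hc
    · exact absurd hc.1 hx
    · have := h'.nc (x + 1) (by rw [hc.2.2.1]; exact hx)
      rw [add_sub_cancel_right] at this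
      rw [this, hc.2.2.1, hc.2.2.2.2.1]
    · exfalso
      have h3 : n (x + 1) ≠ p (x + 1) := by
        rw [hc.2.2.2.1, hc.2.2.2.2.2.1]; omega
      have h4 := hnp h3
      omega
    · exfalso
      have h5 := hc.2.2.2.2.1
      have h6 := hc.2.2.2.2.2.2
      omega
  · intro x hx ih h1 h2
    have hx0 : c (x + 1) = 0 := not_not.mp hx
    have hc := step_cases h (x + 1)
    rw [add_sub_cancel_right] at hc
    have hcg := h.cg (x + 1)
    rw [add_sub_cancel_right] at hcg
    rcases hc with hc | hc | hc | hc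
    · have h3 := h'.n0 (x + 1) hc.2.1
      rw [add_sub_cancel_right] at h3
      rw [← h3, ← hc.2.2.1]
      apply ih
      · rw [hc.2.2.1, hc.2.2.2, h1]
      · have : g (x + 1) = g x := by omega
        rw [this]; exact h2
    all_goals exact absurd hx0 hc.1

theorem StB_p (h : Stage v g0 g c n p N κ) {n' p' : ZMod T → ℤ} (h' : NPf (cn g n p) n' p')
    (hne : ∃ x, cn g n p x ≠ 0) : ∀ x, (n x = p x → 2 ∣ g x - κ → p' x = p x) := by
  apply cyc_left (fun x => (n x = p x → 2 ∣ g x - κ → p' x = p x)) (fun x => c x ≠ 0)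
  · obtain ⟨x, hx⟩ := hne
    refine ⟨x, ?_⟩
    rcases step_cases h x with h1 | h1 | h1 | h1
    · exact absurd h1.2.1 hx
    · exact h1.1
    · exact h1.1
    · exact h1.1
  · intro x hx h1 h2
    have hc := step_cases h x
    have hcg := h.cg x
    have hc01 := h.c01 x
    have hnp := h.par (x - 1)
    rcases hc with hc | hc | hc | hc
    · exact absurd hc.1 hx
    · have := h'.pc x (by rw [hc.2.2.1]; exact hx)
      rw [this, hc.2.2.1, hc.2.2.2.2.2.1]
    · exfalso
      have h5 := hc.2.2.2.1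
      have h6 := hc.2.2.2.2.2.1
      omega
    · exfalso
      have h3 : n (x - 1) ≠ p (x - 1) := by
        rw [hc.2.2.2.2.1, hc.2.2.2.2.2.2]; omega
      have h4 := hnp h3
      omega
  · intro x hx ih h1 h2
    have hx0 : c x = 0 := not_not.mp hx
    have hc := step_cases h x
    have hcg := h.cg x
    rcases hc with hc | hc | hc | hc
    · have h3 := h'.p0 x hc.2.1
      rw [h3, hc.2.2.2]
      apply ih
      · rw [← hc.2.2.1, ← hc.2.2.2, h1]
      · have : g (x - 1) = g x := by omega
        rw [this]; exact h2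
    all_goals exact absurd hx0 hc.1

theorem step_par (h : Stage v g0 g c n p N κ) {n' p' : ZMod T → ℤ} (h' : NPf (cn g n p) n' p')
    (hne : ∃ x, cn g n p x ≠ 0) (x : ZMod T) (hx : n' x ≠ p' x) : 2 ∣ gn g n p x - (κ + 1) := by
  have hn1 := h.np.n1 x
  have hp1 := h.np.p1 x
  by_cases hnp : n x = p x
  · have hg : gn g n p x = g x := by
      unfold gn
      rw [hnp, sub_self]; simp
    rw [hg]
    by_contra hcon
    have h2 : 2 ∣ g x - κ := by omega
    exact hx (by rw [StB_n h h' hne x hnp h2, StB_p h h' hne x hnp h2, hnp])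
  · have h2 := h.par x hnp
    have hg : gn g n p x = g x + 1 ∨ gn g n p x = g x - 1 := by
      unfold gn
      omega
    omega

theorem step_var (h : Stage v g0 g c n p N κ) {n' p' : ZMod T → ℤ} (h' : NPf (cn g n p) n' p') :
    ∑ x, (1 - n' (x - 1) * n' x) ≤ ∑ x, (1 - n (x - 1) * n x) := by
  have key : ∀ x, 1 - n' (x - 1) * n' x ≤
      (1 - n (x - 1) * n x) + (1 - n x * n' x) - (1 - n (x - 1) * n' (x - 1)) := by
    intro x
    have a1 := h.np.n1 x
    have a2 := h.np.n1 (x - 1)
    have a3 := h'.n1 x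
    have a4 := h'.n1 (x - 1)
    by_cases hc : cn g n p x = 0
    · have e := h'.n0 x hc
      rw [e] at *
      rcases a1 with a1 | a1 <;> rcases a2 with a2 | a2 <;> rcases a4 with a4 | a4 <;>
        rw [a1, a2, a4] <;> norm_num
    · have e := h'.nc x hc
      rcases step_cases h x with h1 | h1 | h1 | h1
      · exact absurd h1.2.1 hc
      · have e1 : n' (x - 1) = n x := by rw [e, h1.2.2.1, h1.2.2.2.1]
        have e2 : n (x - 1) = n x := by rw [h1.2.2.2.2.1, h1.2.2.2.1]
        rw [e1, e2]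
        rcases a1 with a1 | a1 <;> rcases a3 with a3 | a3 <;> rw [a1, a3] <;> norm_num
      · exact absurd h1.2.2.1 hc
      · exact absurd h1.2.2.1 hc
  have hs := sum_shift (fun x => 1 - n x * n' x)
  calc ∑ x, (1 - n' (x - 1) * n' x)
      ≤ ∑ x, ((1 - n (x - 1) * n x) + (1 - n x * n' x) - (1 - n (x - 1) * n' (x - 1))) :=
        Finset.sum_le_sum fun x _ => key x
    _ = ∑ x, (1 - n (x - 1) * n x) := by
        rw [Finset.sum_sub_distrib, Finset.sum_add_distrib, hs]
        ring

end Pool.Agent.H44.EP
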